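import Pool.Agent.GD.NM.Cal

/-!
# Leading coefficients from a recursion of Euler type
-/

set_option autoImplicit false

namespace Pool.Agent.GD.NM

open Finset

/-- The identity of Vandermonde for falling factorials. -/
theorem vander (l k s : ℕ) : ∑ u ∈ range (s + 1), s.choose u * (l.descFactorial u * k.descFactorial (s - u)) =
    (l + k).descFactorial s := by
  rw [Nat.descFactorial_eq_factorial_mul_choose (l + k) s, Nat.add_choose_eq,
    Finset.Nat.sum_antidiagonal_eq_sum_range_succ (fun a b => l.choose a * k.choose b), mul_sum]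
  refine sum_congr rfl fun u hu => ?_
  have hus : u ≤ s := Nat.lt_succ_iff.1 (mem_range.1 hu)
  rw [Nat.descFactorial_eq_factorial_mul_choose, Nat.descFactorial_eq_factorial_mul_choose,
    ← Nat.choose_mul_factorial_mul_factorial hus]
  ring

theorem bc_desc (x y : ℝ) (l k s : ℕ) :
    bc (fun t => x * (l.descFactorial t : ℕ)) (fun t => y * (k.descFactorial t : ℕ)) s =
      x * y * ((l + k).descFactorial s : ℕ) := by
  rw [← vander l k s]
  unfold bc
  push_cast
  rw [mul_sum]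
  exact sum_congr rfl fun u _ => by ring

theorem desc_le (l s : ℕ) : l.descFactorial s ≤ l.factorial := by
  by_cases h : s ≤ l
  · have h1 := Nat.factorial_mul_descFactorial h
    have h2 : 1 ≤ (l - s).factorial := Nat.factorial_pos _
    nlinarith
  · rw [Nat.descFactorial_of_lt (by omega)]
    exact Nat.zero_le _

theorem desc_le' {l d : ℕ} (h : l ≤ d) (s : ℕ) : (l.descFactorial s : ℝ) ≤ (d.factorial : ℝ) := by
  exact_mod_cast (desc_le l s).trans (Nat.factorial_le h)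

/-- The constant function `1`. -/
theorem Lw_one (I : Finset ℕ) (c : ℕ → ℕ) (n : ℕ) :
    Lw I c n 0 (fun s => (1 : ℝ) * ((0 : ℕ).descFactorial s : ℕ)) 0 fun _ => 1 := by
  intro S T _ _ _
  rcases S.eq_empty_or_nonempty with h | h
  · subst h
    rw [dl_empty]
    simp [cp]
  · rw [dl_const h]
    have h1 : Nat.descFactorial 0 S.card = 0 := Nat.descFactorial_of_lt (card_pos.2 h)
    simp only [h1]
    simp

theorem va_abs (m d : ℕ) (B K : ℝ) (hB : 0 ≤ B) (hK : 0 ≤ K) : ∀ D ≤ d, ∃ C G : ℝ, 0 ≤ C ∧ 0 ≤ G ∧ ∀ β g : ℕ → ℝ, (∀ l ≤ d, |β l| ≤ B) →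
    g 0 = 1 → (∀ D : ℕ, ((D : ℝ) + 1) * g (D + 1) = ∑ l ∈ range (D + 1), β (l + 1) * g (D - l)) → |g D| ≤ G ∧
      ∀ (I : Finset ℕ) (c : ℕ → ℕ) (n : ℕ) (ε : ℝ) (a b : ℕ → Finset ℕ → ℝ), I.card ≤ m → 0 ≤ ε → ε ≤ 1 →
        (∀ T ⊆ I, a 0 T = 1) →
        (∀ D : ℕ, ∀ T ⊆ I, ((D : ℝ) + 1) * a (D + 1) T = ∑ l ∈ range (D + 1), b (l + 1) T * a (D - l) T) →
        (∀ l, 1 ≤ l → l ≤ d → Lw I c n l (fun s => β l * (l.descFactorial s : ℕ)) (K * ε) (b l)) →
        Lw I c n D (fun s => g D * (D.descFactorial s : ℕ)) (C * ε) (a D) := by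
  intro D
  induction D using Nat.strong_induction_on with
  | _ D ih =>
  intro hD
  rcases D with _ | D
  · refine ⟨0, 1, le_rfl, zero_le_one, fun β g _ hg0 _ => ⟨by rw [hg0, abs_one], ?_⟩⟩
    intro I c n ε a b _ _ _ ha0 _ _
    rw [zero_mul]
    refine (Lw_one I c n).congr (fun T hT => (ha0 T hT).symm) fun s _ => ?_
    rw [hg0]
  have ih' : ∀ l : Fin (D + 1), ∃ C G : ℝ, 0 ≤ C ∧ 0 ≤ G ∧ ∀ β g : ℕ → ℝ, (∀ l ≤ d, |β l| ≤ B) →
    g 0 = 1 → (∀ D : ℕ, ((D : ℝ) + 1) * g (D + 1) = ∑ l ∈ range (D + 1), β (l + 1) * g (D - l)) → |g (D - l.1)| ≤ G ∧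
      ∀ (I : Finset ℕ) (c : ℕ → ℕ) (n : ℕ) (ε : ℝ) (a b : ℕ → Finset ℕ → ℝ), I.card ≤ m → 0 ≤ ε → ε ≤ 1 →
        (∀ T ⊆ I, a 0 T = 1) →
        (∀ D : ℕ, ∀ T ⊆ I, ((D : ℝ) + 1) * a (D + 1) T = ∑ l ∈ range (D + 1), b (l + 1) T * a (D - l) T) →
        (∀ l, 1 ≤ l → l ≤ d → Lw I c n l (fun s => β l * (l.descFactorial s : ℕ)) (K * ε) (b l)) →
        Lw I c n (D - l.1) (fun s => g (D - l.1) * ((D - l.1).descFactorial s : ℕ)) (C * ε) (a (D - l.1)) :=
    fun l => ih (D - l.1) (by omega) (by omega)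
  choose C G hC hG hCG using ih'
  have hB' : 0 ≤ B * d.factorial := mul_nonneg hB (Nat.cast_nonneg _)
  have hG' : ∀ l, 0 ≤ G l * d.factorial := fun l => mul_nonneg (hG l) (Nat.cast_nonneg _)
  refine ⟨∑ l : Fin (D + 1), 2 ^ m * (B * d.factorial * C l + G l * d.factorial * K + K * C l), ∑ l : Fin (D + 1), B * G l,
    sum_nonneg fun l _ => mul_nonneg (by positivity)
      (add_nonneg (add_nonneg (mul_nonneg hB' (hC l)) (mul_nonneg (hG' l) hK)) (mul_nonneg hK (hC l))),
    sum_nonneg fun l _ => mul_nonneg hB (hG l),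
    fun β g hβ hg0 hg => ⟨?_, ?_⟩⟩
  · have h1 := hg D
    have h2 : |((D : ℝ) + 1) * g (D + 1)| ≤ ∑ l : Fin (D + 1), B * G l := by
      rw [h1, ← Fin.sum_univ_eq_sum_range (fun l => β (l + 1) * g (D - l)) (D + 1)]
      refine (abs_sum_le_sum_abs _ _).trans (sum_le_sum fun l _ => ?_)
      rw [abs_mul]
      exact mul_le_mul (hβ _ (by have := l.2; omega)) ((hCG l β g hβ hg0 hg).1) (abs_nonneg _) hB
    rw [abs_mul, abs_of_nonneg (by positivity : (0 : ℝ) ≤ (D : ℝ) + 1)] at h2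
    refine le_trans ?_ h2
    have h3 : (1 : ℝ) ≤ (D : ℝ) + 1 := by
      have : (0 : ℝ) ≤ D := Nat.cast_nonneg _
      linarith
    exact le_mul_of_one_le_left (abs_nonneg _) h3
  · intro I c n ε a b hI hε0 hε1 ha0 ha hb
    have hprod : ∀ l : Fin (D + 1), Lw I c n (D + 1) (fun s => β (l.1 + 1) * g (D - l.1) * ((D + 1).descFactorial s : ℕ))
        (2 ^ m * (B * d.factorial * C l + G l * d.factorial * K + K * C l) * ε) fun T => b (l.1 + 1) T * a (D - l.1) T := by
      intro l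
      have hl := l.2
      have h1 := hb (l.1 + 1) (by omega) (by omega)
      have h2 := (hCG l β g hβ hg0 hg).2 I c n ε a b hI hε0 hε1 ha0 ha hb
      have hg1 := (hCG l β g hβ hg0 hg).1
      have h3 := h1.mul (A := B * d.factorial) (B := G l * d.factorial) h2 hI (fun s _ => by
        rw [abs_mul, Nat.abs_cast]
        exact mul_le_mul (hβ _ (by omega)) (desc_le' (by omega) s) (Nat.cast_nonneg _) hB) (fun s _ => by
        rw [abs_mul, Nat.abs_cast]
        exact mul_le_mul hg1 (desc_le' (by omega) s) (Nat.cast_nonneg _) (hG l)) (mul_nonneg hK hε0)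
      have h4 : l.1 + 1 + (D - l.1) = D + 1 := by omega
      rw [h4] at h3
      refine (h3.congr (fun T _ => rfl) fun s _ => ?_).mono ?_
      · rw [bc_desc, h4]
      · have h5 : K * ε * (C l * ε) ≤ K * (C l * ε) := by
          have : 0 ≤ K * (C l * ε) := mul_nonneg hK (mul_nonneg (hC l) hε0)
          nlinarith
        have h6 : (0 : ℝ) ≤ 2 ^ m := by positivity
        calc 2 ^ m * (B * d.factorial * (C l * ε) + G l * d.factorial * (K * ε) + K * ε * (C l * ε)) ≤
              2 ^ m * (B * d.factorial * (C l * ε) + G l * d.factorial * (K * ε) + K * (C l * ε)) :=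
              mul_le_mul_of_nonneg_left (by linarith) h6
          _ = _ := by ring
    have hsum := Lw.sum (univ : Finset (Fin (D + 1))) (fun l _ => hprod l)
    have hD1 : ((D : ℝ) + 1) ≠ 0 := by positivity
    have hsm := hsum.smul (((D : ℝ) + 1)⁻¹)
    refine (hsm.congr (fun T hT => ?_) fun s _ => ?_).mono ?_
    · have h1 := ha D T hT
      rw [← Fin.sum_univ_eq_sum_range (fun l => b (l + 1) T * a (D - l) T) (D + 1)] at h1
      rw [← h1]
      field_simp
    · have h1 := hg D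
      rw [← Fin.sum_univ_eq_sum_range (fun l => β (l + 1) * g (D - l)) (D + 1)] at h1
      rw [← sum_mul, ← h1]
      field_simp
    · rw [sum_mul, abs_of_nonneg (by positivity : (0 : ℝ) ≤ ((D : ℝ) + 1)⁻¹)]
      have h1 : ((D : ℝ) + 1)⁻¹ ≤ 1 := by
        refine inv_le_one_of_one_le₀ ?_
        have : (0 : ℝ) ≤ D := Nat.cast_nonneg _
        linarith
      refine mul_le_of_le_one_left (sum_nonneg fun l _ => ?_) h1
      exact mul_nonneg (mul_nonneg (by positivity)
        (add_nonneg (add_nonneg (mul_nonneg hB' (hC l)) (mul_nonneg (hG' l) hK)) (mul_nonneg hK (hC l)))) hε0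

end Pool.Agent.GD.NM
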