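import Pool.Agent.GD.NM.Win
import Pool.Agent.GD.NM.Abs

/-!
# Leading coefficients of the numbers of the factors and of the dimensions
-/

set_option autoImplicit false

namespace Pool.Agent.GD.NM

open Finset

theorem one_le_cp {c : ℕ → ℕ} {S : Finset ℕ} (h : ∀ i ∈ S, 1 ≤ c i) : 1 ≤ cp c S := by
  unfold cp
  calc (1 : ℝ) = ∏ _i ∈ S, (1 : ℝ) := by rw [prod_const_one]
    _ ≤ ∏ i ∈ S, (c i : ℝ) := prod_le_prod (fun _ _ => zero_le_one) fun i hi => by exact_mod_cast h i hi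

theorem cp_mono {c : ℕ → ℕ} {S R : Finset ℕ} (h : ∀ i ∈ R, 1 ≤ c i) (hSR : S ⊆ R) : cp c S ≤ cp c R := by
  rw [← cp_mul hSR]
  have h1 : 1 ≤ cp c (R \ S) := one_le_cp fun i hi => h i (mem_sdiff.1 hi).1
  exact le_mul_of_one_le_right (cp_nonneg _ _) h1

theorem dl_ms (x : ℕ) (ms : Multiset Kd) (S T : Finset ℕ) :
    |dl S (fun U => (((ms.map (ci x U)).sum : ℕ) : ℝ)) T| ≤ (ms.map fun k => |dl S (fun U => (ci x U k : ℝ)) T|).sum := by
  induction ms using Multiset.induction_on with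
  | empty =>
    simp only [Multiset.map_zero, Multiset.sum_zero, Nat.cast_zero]
    unfold dl
    simp
  | cons k ms ih =>
    have h1 : (fun U => ((((k ::ₘ ms).map (ci x U)).sum : ℕ) : ℝ)) =
        fun U => (ci x U k : ℝ) + (((ms.map (ci x U)).sum : ℕ) : ℝ) := by
      funext U
      rw [Multiset.map_cons, Multiset.sum_cons]
      push_cast
      ring
    rw [h1, dl_add, Multiset.map_cons, Multiset.sum_cons]
    exact (abs_add_le _ _).trans (add_le_add_right ih _)

/-- A finite set of types which contains all allowed types. -/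
def allT (d j : ℕ) : Finset CT :=
  ((range (d + 1)) ×ˢ (range j).powerset).image (fun p => CT.pl p.1 p.2) ∪ (range j).powerset.image CT.b0 ∪
    (range (j + 1)).image CT.br

theorem mem_allT {d e i j : ℕ} (hi : i < j) {τ : CT} (h : τ.Ok d e i j) : τ ∈ allT d j := by
  unfold allT
  rw [mem_union, mem_union]
  cases τ with
  | pl k S =>
    left; left
    obtain ⟨-, h2, h3, -⟩ := h
    refine mem_image.2 ⟨(k, S), mem_product.2 ⟨mem_range.2 ?_, mem_powerset.2 fun s hs => ?_⟩, rfl⟩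
    · have h4 : (d - i - 1) / (e - 1) ≤ d - i - 1 := Nat.div_le_self _ _
      show k < d + 1
      omega
    · exact mem_range.2 (mem_Ico.1 (h3 hs)).2
  | b0 S =>
    left; right
    obtain ⟨-, h3, -⟩ := h
    exact mem_image.2 ⟨S, mem_powerset.2 fun s hs => mem_range.2 (mem_Ico.1 (h3 hs)).2, rfl⟩
  | br r =>
    right
    obtain ⟨-, h2⟩ := h
    exact mem_image.2 ⟨r, mem_range.2 (by omega), rfl⟩

section

variable {P : Par} {j n : ℕ} {ms : Multiset Kd}

/-- The clusters do not contribute. -/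
theorem cl_small (he : 2 ≤ P.e) (hj : j ≤ P.J) (H : Cls P j n ms) (hn : 1 ≤ n) (x : ℕ) {S T : Finset ℕ}
    (hS : S ⊆ range j) :
    |dl S (fun U => (((ms.map (ci x U)).sum : ℕ) : ℝ)) T| * (n : ℝ) ^ S.card * n ≤
      (((range j) ×ˢ allT P.d j).card : ℝ) * ((∑ τ ∈ allT P.d j, (τ.mm P : ℝ)) * 2 ^ j) * (n : ℝ) ^ x := by
  classical
  set Mb : ℝ := ∑ τ ∈ allT P.d j, (τ.mm P : ℝ) with hMb
  have hMb0 : 0 ≤ Mb := sum_nonneg fun _ _ => Nat.cast_nonneg _
  have hn1 : (1 : ℝ) ≤ n := by exact_mod_cast hn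
  have hn0 : (0 : ℝ) ≤ n := zero_le_one.trans hn1
  set h : Kd → ℝ := fun k => |dl S (fun U => (ci x U k : ℝ)) T| with hh
  set Ks : Finset Kd := ((range j) ×ˢ allT P.d j).image fun p => p.2.kd P.d P.e p.1 j with hKs
  have h1 : |dl S (fun U => (((ms.map (ci x U)).sum : ℕ) : ℝ)) T| ≤ ∑ k ∈ Ks, (ms.count k : ℝ) * h k := by
    refine (dl_ms x ms S T).trans ?_
    rw [Finset.sum_multiset_map_count]
    have h2 : ∀ k ∈ ms.toFinset, k ∉ Ks → ms.count k • h k = 0 := by
      intro k hk hkK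
      rcases H.mem k (Multiset.mem_toFinset.1 hk) with ⟨y, A, rfl, -⟩ | ⟨i, hi, τ, hτ, rfl⟩
      · have h3 : h (.ord y A) = 0 := by
          rw [hh]
          dsimp only
          unfold ci dl
          simp
        rw [h3, smul_zero]
      · exact absurd (mem_image.2 ⟨(i, τ), mem_product.2 ⟨mem_range.2 hi, mem_allT hi hτ⟩, rfl⟩) hkK
    rw [← Finset.sum_filter_add_sum_filter_not ms.toFinset (fun k => k ∈ Ks)]
    have h4 : ∑ k ∈ ms.toFinset with k ∉ Ks, ms.count k • h k = 0 :=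
      sum_eq_zero fun k hk => h2 k (mem_filter.1 hk).1 (mem_filter.1 hk).2
    rw [h4, add_zero]
    have h5 : ∑ k ∈ ms.toFinset with k ∈ Ks, ms.count k • h k = ∑ k ∈ ms.toFinset with k ∈ Ks, (ms.count k : ℝ) * h k :=
      sum_congr rfl fun k _ => by rw [nsmul_eq_mul]
    rw [h5]
    refine sum_le_sum_of_subset_of_nonneg (fun k hk => (mem_filter.1 hk).2) fun k _ _ => ?_
    exact mul_nonneg (Nat.cast_nonneg _) (abs_nonneg _)
  have h6 : ∀ k ∈ Ks, (ms.count k : ℝ) * h k * (n : ℝ) ^ S.card * n ≤ Mb * 2 ^ j * (n : ℝ) ^ x := by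
    intro k hk
    by_cases hkm : k ∈ ms
    swap
    · rw [Multiset.count_eq_zero_of_notMem hkm, Nat.cast_zero, zero_mul, zero_mul, zero_mul]
      positivity
    rcases H.mem k hkm with ⟨y, A, rfl, -⟩ | ⟨i, hi, τ, hτ, rfl⟩
    · have h3 : h (.ord y A) = 0 := by
        rw [hh]
        dsimp only
        unfold ci dl
        simp
      rw [h3, mul_zero, zero_mul, zero_mul]
      positivity
    · obtain ⟨dl', As, V, e1, hne, e2, e3, e4⟩ := kd_data he hj hi hτ
      have hcnt := H.cnt i hi τ hτ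
      have hmm : (τ.mm P : ℝ) ≤ Mb := single_le_sum (f := fun τ : CT => (τ.mm P : ℝ)) (fun _ _ => Nat.cast_nonneg _) (mem_allT hi hτ)
      rcases dl_ci x P.e dl' i As S T with h7 | ⟨h7, h8⟩
      · have h9 : h (τ.kd P.d P.e i j) = 0 := by
          rw [hh, e1]
          dsimp only
          rw [h7, abs_zero]
        rw [h9, mul_zero, zero_mul, zero_mul]
        positivity
      · have hSV : S ⊆ insert i V := by
          intro s hs
          rw [mem_insert]
          by_contra h10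
          push Not at h10
          have h11 : s ∈ (range j).erase i := mem_erase.2 ⟨h10.1, hS hs⟩
          have h12 : s ∈ S.erase i ∩ inter As := Finset.mem_inter.2 ⟨mem_erase.2 ⟨h10.1, hs⟩, e3 s h11 h10.2⟩
          rw [h8] at h12
          exact notMem_empty s h12
        have hScard : S.card ≤ V.card + 1 := (card_le_card hSV).trans (card_insert_le i V)
        have hSj : S.card ≤ j := by simpa using card_le_card hS
        have hx : τ.w P.e + S.card + 1 ≤ x := by omega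
        have h9 : h (τ.kd P.d P.e i j) ≤ 2 ^ j := (abs_dl_ci x _ S T).trans (pow_le_pow_right₀ one_le_two hSj)
        have h10 : (ms.count (τ.kd P.d P.e i j) : ℝ) ≤ Mb * (n : ℝ) ^ τ.w P.e := by
          have h11 : (ms.count (τ.kd P.d P.e i j) : ℝ) ≤ (τ.mm P : ℝ) * (n : ℝ) ^ τ.w P.e := by exact_mod_cast hcnt
          exact h11.trans (mul_le_mul_of_nonneg_right hmm (pow_nonneg hn0 _))
        have h12 : (n : ℝ) ^ τ.w P.e * (n : ℝ) ^ S.card * n ≤ (n : ℝ) ^ x := by
          rw [← pow_add, ← pow_succ]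
          exact pow_le_pow_right₀ hn1 hx
        calc (ms.count (τ.kd P.d P.e i j) : ℝ) * h (τ.kd P.d P.e i j) * (n : ℝ) ^ S.card * n ≤
              Mb * (n : ℝ) ^ τ.w P.e * 2 ^ j * (n : ℝ) ^ S.card * n := by
              refine mul_le_mul_of_nonneg_right (mul_le_mul_of_nonneg_right ?_ (pow_nonneg hn0 _)) hn0
              exact mul_le_mul h10 h9 (abs_nonneg _) (mul_nonneg hMb0 (pow_nonneg hn0 _))
          _ = Mb * 2 ^ j * ((n : ℝ) ^ τ.w P.e * (n : ℝ) ^ S.card * n) := by ring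
          _ ≤ _ := mul_le_mul_of_nonneg_left h12 (by positivity)
  calc _ ≤ (∑ k ∈ Ks, (ms.count k : ℝ) * h k) * (n : ℝ) ^ S.card * n :=
        mul_le_mul_of_nonneg_right (mul_le_mul_of_nonneg_right h1 (pow_nonneg hn0 _)) hn0
    _ = ∑ k ∈ Ks, (ms.count k : ℝ) * h k * (n : ℝ) ^ S.card * n := by
        rw [sum_mul, sum_mul]
    _ ≤ ∑ _k ∈ Ks, Mb * 2 ^ j * (n : ℝ) ^ x := sum_le_sum h6
    _ = (Ks.card : ℝ) * (Mb * 2 ^ j * (n : ℝ) ^ x) := by rw [sum_const, nsmul_eq_mul]
    _ ≤ (((range j) ×ˢ allT P.d j).card : ℝ) * (Mb * 2 ^ j * (n : ℝ) ^ x) := by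
        refine mul_le_mul_of_nonneg_right ?_ (by positivity)
        exact_mod_cast card_image_le
    _ = _ := by ring

/-- Leading coefficients of the numbers of the factors. -/
theorem Lw_M {d : ℕ} (hP : P.Ok 1 1) (hd' : P.d = d) (hc : ∀ i < P.J, 1 ≤ P.c i) (hj : j ≤ P.J) {ε : ℝ} (hε : P.eps j ≤ ε) (hε1 : ε ≤ 1) :
    ∃ n₀ : ℕ, ∀ n, n₀ ≤ n → ∀ ms, Cls P j n ms →
      |(ms.count (P.u j) : ℝ) - P.kap P.e * (n : ℝ) ^ P.e| ≤ ε * (n : ℝ) ^ P.e → ∀ x ≤ d,
        Lw (range j) P.c n x (fun s => P.kap x * (x.descFactorial s : ℕ)) (3 * ε) fun T => (((exm ms T).count x : ℕ) : ℝ) := by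
  have he := hP.two
  have hd := hP.lt
  have heps : 0 < P.eps j := (eps_mono hP (le_refl j) hj).1
  have hε0 : 0 < ε := heps.trans_le hε
  have hcj : ∀ i ∈ range j, 1 ≤ P.c i := fun i hi => hc i ((mem_range.1 hi).trans_le hj)
  obtain ⟨B, hB0, hB⟩ : ∃ B : ℝ, 0 ≤ B ∧ ∀ x ≤ d, P.kap x ≤ B := by
    refine ⟨∑ x ∈ range (d + 1), P.kap x, sum_nonneg fun x _ => hP.nonneg x, fun x hx => ?_⟩
    exact single_le_sum (f := P.kap) (fun y _ => hP.nonneg y) (mem_range.2 (by omega))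
  set Q1 : ℝ := (((range j) ×ˢ allT P.d j).card : ℝ) * ((∑ τ ∈ allT P.d j, (τ.mm P : ℝ)) * 2 ^ j) with hQ1
  have hQ10 : 0 ≤ Q1 := by
    have : 0 ≤ ∑ τ ∈ allT P.d j, (τ.mm P : ℝ) := sum_nonneg fun _ _ => Nat.cast_nonneg _
    positivity
  set Q2 : ℝ := 2 ^ j * ((B * d.factorial + 1) * cp P.c (range j)) with hQ2
  have hQ20 : 0 ≤ Q2 := by
    have : 0 ≤ cp P.c (range j) := cp_nonneg _ _
    positivity
  obtain ⟨n₀, hn₀⟩ := exists_nat_ge (max 1 (max (Q1 / ε) (Q2 / ε)))
  refine ⟨n₀, fun n hn ms H hu x hx => ?_⟩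
  have hnr : max 1 (max (Q1 / ε) (Q2 / ε)) ≤ (n : ℝ) := hn₀.trans (by exact_mod_cast hn)
  have hn1 : (1 : ℝ) ≤ n := (le_max_left _ _).trans hnr
  have hn1' : 1 ≤ n := by exact_mod_cast hn1
  have hn0 : (0 : ℝ) < n := zero_lt_one.trans_le hn1
  have hq1 : Q1 ≤ ε * n := by
    have := ((le_max_left _ _).trans (le_max_right _ _)).trans hnr
    rw [div_le_iff₀ hε0] at this
    linarith
  have hq2 : Q2 ≤ ε * n := by
    have := ((le_max_right _ _).trans (le_max_right _ _)).trans hnr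
    rw [div_le_iff₀ hε0] at this
    linarith
  intro S T hS hT hST
  have hcpS : 1 ≤ cp P.c S := one_le_cp fun i hi => hcj i (hS hi)
  have hnx : 0 ≤ (n : ℝ) ^ x := pow_nonneg hn0.le _
  have hfun : (fun T => (((exm ms T).count x : ℕ) : ℝ)) = fun T =>
      ((((ms.bind Kd.pts).countP (fun p => p.1 = x ∧ T ⊆ p.2) : ℕ) : ℝ)) + (((ms.map (ci x T)).sum : ℕ) : ℝ) := by
    funext T
    rw [count_exm x T ms (cls_gd he hj H)]
    push_cast
    rfl
  rw [hfun, dl_add, dl_countP]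
  -- the clusters
  have hcl : |dl S (fun U => (((ms.map (ci x U)).sum : ℕ) : ℝ)) T| * (n : ℝ) ^ S.card ≤ ε * (cp P.c S * (n : ℝ) ^ x) := by
    have h1 := cl_small he hj H hn1' x (T := T) hS
    rw [← hQ1] at h1
    have h2 : |dl S (fun U => (((ms.map (ci x U)).sum : ℕ) : ℝ)) T| * (n : ℝ) ^ S.card * n ≤ ε * (n : ℝ) ^ x * n := by
      refine h1.trans ?_
      calc Q1 * (n : ℝ) ^ x ≤ ε * n * (n : ℝ) ^ x := mul_le_mul_of_nonneg_right hq1 hnx
        _ = _ := by ring
    have h3 := le_of_mul_le_mul_right h2 hn0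
    refine h3.trans (mul_le_mul_of_nonneg_left ?_ hε0.le)
    exact le_mul_of_one_le_left hnx hcpS
  -- the points
  have hpts : |(((ms.bind Kd.pts).countP (fun p => p.1 = x ∧ T ⊆ p.2 ∧ Disjoint S p.2) : ℕ) : ℝ) * (n : ℝ) ^ S.card -
      P.kap x * (x.descFactorial S.card : ℕ) * (cp P.c S * (n : ℝ) ^ x)| ≤ 2 * ε * (cp P.c S * (n : ℝ) ^ x) := by
    rw [countP_eq_sum (ms.bind Kd.pts) x (range j) (fun A => T ⊆ A ∧ Disjoint S A) fun p hp =>
      (cls_pts he hd hj H p hp).1]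
    set F := (range j).powerset.filter (fun A => T ⊆ A ∧ Disjoint S A) with hF
    have hA0 : range j \ S ∈ F := by
      rw [hF, mem_filter, mem_powerset]
      exact ⟨sdiff_subset, subset_sdiff.2 ⟨hT, hST.symm⟩, disjoint_sdiff⟩
    have hK0 : range j \ (range j \ S) = S := by rw [_root_.sdiff_sdiff_eq_self hS]
    rw [← Finset.add_sum_erase F (fun A => (ms.bind Kd.pts).count (x, A)) hA0]
    have h1 := npt_win hP hj H hε hu x (A := range j \ S) sdiff_subset
    rw [hK0] at h1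
    have h2 : ∀ A ∈ F.erase (range j \ S), (npt ms x A : ℝ) * (n : ℝ) ^ S.card * n ≤
        (B * d.factorial + 1) * cp P.c (range j) * (n : ℝ) ^ x := by
      intro A hA
      rw [mem_erase, hF, mem_filter, mem_powerset] at hA
      obtain ⟨hA1, hA2, hA3, hA4⟩ := hA
      have hSK : S ⊂ range j \ A := by
        refine ssubset_of_subset_of_ne (subset_sdiff.2 ⟨hS, hA4⟩) fun h3 => hA1 ?_
        rw [h3, _root_.sdiff_sdiff_eq_self hA2]
      have hcard : S.card + 1 ≤ (range j \ A).card := card_lt_card hSK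
      have h3 := npt_win hP hj H hε hu x hA2
      have h4 := (abs_le.1 h3).2
      have hcpK : cp P.c (range j \ A) ≤ cp P.c (range j) := cp_mono hcj sdiff_subset
      have hcpK0 : 0 ≤ cp P.c (range j \ A) := cp_nonneg _ _
      have h5 : P.kap x * (x.descFactorial (range j \ A).card : ℕ) ≤ B * d.factorial :=
        mul_le_mul (hB x hx) (desc_le' hx _) (Nat.cast_nonneg _) hB0
      have h6 : (npt ms x A : ℝ) * (n : ℝ) ^ S.card * n ≤ (npt ms x A : ℝ) * (n : ℝ) ^ (range j \ A).card := by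
        rw [mul_assoc, ← pow_succ]
        exact mul_le_mul_of_nonneg_left (pow_le_pow_right₀ hn1 hcard) (Nat.cast_nonneg _)
      refine h6.trans ?_
      have h7 : (npt ms x A : ℝ) * (n : ℝ) ^ (range j \ A).card ≤
          (P.kap x * (x.descFactorial (range j \ A).card : ℕ) + ε) * (cp P.c (range j \ A) * (n : ℝ) ^ x) := by
        rw [add_mul]
        linarith
      refine h7.trans ?_
      rw [mul_assoc (B * (d.factorial : ℝ) + 1)]
      exact mul_le_mul (add_le_add h5 hε1) (mul_le_mul_of_nonneg_right hcpK hnx)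
        (mul_nonneg hcpK0 hnx) (by positivity)
    have h3 : (∑ A ∈ F.erase (range j \ S), ((npt ms x A : ℕ) : ℝ)) * (n : ℝ) ^ S.card ≤ ε * (cp P.c S * (n : ℝ) ^ x) := by
      have h4 : (∑ A ∈ F.erase (range j \ S), ((npt ms x A : ℕ) : ℝ)) * (n : ℝ) ^ S.card * n ≤ ε * (n : ℝ) ^ x * n := by
        rw [sum_mul, sum_mul]
        calc _ ≤ ∑ _A ∈ F.erase (range j \ S), (B * d.factorial + 1) * cp P.c (range j) * (n : ℝ) ^ x := sum_le_sum h2
          _ = ((F.erase (range j \ S)).card : ℝ) * ((B * d.factorial + 1) * cp P.c (range j) * (n : ℝ) ^ x) := by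
              rw [sum_const, nsmul_eq_mul]
          _ ≤ 2 ^ j * ((B * d.factorial + 1) * cp P.c (range j) * (n : ℝ) ^ x) := by
              refine mul_le_mul_of_nonneg_right ?_ (by have := cp_nonneg P.c (range j); positivity)
              have h5 : (F.erase (range j \ S)).card ≤ 2 ^ j := by
                refine (card_le_card (erase_subset _ _)).trans ((card_filter_le _ _).trans ?_)
                rw [card_powerset, card_range]
              exact_mod_cast h5
          _ = Q2 * (n : ℝ) ^ x := by rw [hQ2]; ring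
          _ ≤ ε * n * (n : ℝ) ^ x := mul_le_mul_of_nonneg_right hq2 hnx
          _ = _ := by ring
      refine (le_of_mul_le_mul_right h4 hn0).trans (mul_le_mul_of_nonneg_left ?_ hε0.le)
      exact le_mul_of_one_le_left hnx hcpS
    have h8 : 0 ≤ (∑ A ∈ F.erase (range j \ S), ((npt ms x A : ℕ) : ℝ)) * (n : ℝ) ^ S.card :=
      mul_nonneg (sum_nonneg fun _ _ => Nat.cast_nonneg _) (pow_nonneg hn0.le _)
    have h9 : ((((ms.bind Kd.pts).count (x, range j \ S) + ∑ A ∈ F.erase (range j \ S), (ms.bind Kd.pts).count (x, A) : ℕ)) : ℝ) *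
        (n : ℝ) ^ S.card = (npt ms x (range j \ S) : ℝ) * (n : ℝ) ^ S.card +
          (∑ A ∈ F.erase (range j \ S), ((npt ms x A : ℕ) : ℝ)) * (n : ℝ) ^ S.card := by
      unfold npt
      push_cast
      ring
    rw [h9]
    rw [abs_le] at h1 ⊢
    constructor <;> nlinarith [h1.1, h1.2]
  calc _ = |((((ms.bind Kd.pts).countP (fun p => p.1 = x ∧ T ⊆ p.2 ∧ Disjoint S p.2) : ℕ) : ℝ) * (n : ℝ) ^ S.card -
        P.kap x * (x.descFactorial S.card : ℕ) * (cp P.c S * (n : ℝ) ^ x)) +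
        dl S (fun U => (((ms.map (ci x U)).sum : ℕ) : ℝ)) T * (n : ℝ) ^ S.card| := by
        congr 1
        ring
    _ ≤ 2 * ε * (cp P.c S * (n : ℝ) ^ x) + ε * (cp P.c S * (n : ℝ) ^ x) := by
        refine (abs_add_le _ _).trans (add_le_add hpts ?_)
        rw [abs_mul, abs_of_nonneg (pow_nonneg hn0.le S.card)]
        exact hcl
    _ = _ := by ring

end

end Pool.Agent.GD.NM
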