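import Pool.Agent.GD.NM.VaM
import Pool.Agent.GD.N.Va

/-!
# The virtual dimension is `0` if the degree is less than the number of the blocks
-/

set_option autoImplicit false

namespace Pool.Agent.GD.NM

open Finset

theorem Lw.bmul {I : Finset ℕ} {c : ℕ → ℕ} {n w w' m : ℕ} {δ δ' : ℝ} {f g : Finset ℕ → ℝ}
    (hf : Lw I c n w (fun _ => 0) δ f) (hg : Lw I c n w' (fun _ => 0) δ' g) (hm : I.card ≤ m) (hd : 0 ≤ δ) :
    Lw I c n (w + w') (fun _ => 0) (2 ^ m * (δ * δ')) fun T => f T * g T := by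
  have h := hf.mul (A := 0) (B := 0) hg hm (fun s _ => by rw [abs_zero]) (fun s _ => by rw [abs_zero]) hd
  refine (h.congr (fun _ _ => rfl) fun s _ => ?_).mono ?_
  · unfold bc
    exact sum_eq_zero fun u _ => by ring
  · rw [zero_mul, zero_mul, zero_add, zero_add]

theorem Lw.bup {I : Finset ℕ} {c : ℕ → ℕ} {n w w' : ℕ} {δ : ℝ} {f : Finset ℕ → ℝ}
    (hf : Lw I c n w (fun _ => 0) δ f) (hw : w ≤ w') (hn : 1 ≤ n) (hd : 0 ≤ δ) : Lw I c n w' (fun _ => 0) δ f := by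
  intro S T hS hT hST
  refine (hf S T hS hT hST).trans ?_ |>.trans_eq' ?_
  · refine mul_le_mul_of_nonneg_left (mul_le_mul_of_nonneg_left ?_ (cp_nonneg c S)) hd
    exact pow_le_pow_right₀ (by exact_mod_cast hn) hw
  · ring

/-- Bounded mixed differences from a recursion of Euler type. -/
theorem bd_abs (m d : ℕ) (K : ℝ) (hK : 0 ≤ K) : ∀ D ≤ d, ∃ G : ℝ, 0 ≤ G ∧ ∀ (I : Finset ℕ) (c : ℕ → ℕ) (n : ℕ)
    (a b : ℕ → Finset ℕ → ℝ), I.card ≤ m → (∀ T ⊆ I, a 0 T = 1) →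
    (∀ D : ℕ, ∀ T ⊆ I, ((D : ℝ) + 1) * a (D + 1) T = ∑ l ∈ range (D + 1), b (l + 1) T * a (D - l) T) →
    (∀ l, 1 ≤ l → l ≤ d → Lw I c n l (fun _ => 0) K (b l)) → Lw I c n D (fun _ => 0) G (a D) := by
  intro D
  induction D using Nat.strong_induction_on with
  | _ D ih =>
  intro hD
  rcases D with _ | D
  · refine ⟨1, zero_le_one, fun I c n a b _ ha0 _ _ => ?_⟩
    intro S T hS hT hST
    have h1 := (Lw_one I c n).congr (fun T hT => (ha0 T hT).symm) (β := fun s => (1 : ℝ) * ((0 : ℕ).descFactorial s : ℕ))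
      (fun s _ => rfl) S T hS hT hST
    beta_reduce at h1 ⊢
    rw [zero_mul] at h1
    have h2 := abs_nonpos_iff.1 h1
    have h3 : 0 ≤ cp c S * (n : ℝ) ^ 0 := by have := cp_nonneg c S; positivity
    have h4 : ((Nat.descFactorial 0 S.card : ℕ) : ℝ) ≤ 1 := by exact_mod_cast (desc_le 0 S.card).trans (by simp)
    have h5 : (0 : ℝ) ≤ ((Nat.descFactorial 0 S.card : ℕ) : ℝ) := Nat.cast_nonneg _
    rw [zero_mul, sub_zero]
    have h6 : dl S (a 0) T * (n : ℝ) ^ S.card = 1 * ((Nat.descFactorial 0 S.card : ℕ) : ℝ) * (cp c S * (n : ℝ) ^ 0) := by linarith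
    rw [h6, one_mul, abs_of_nonneg (mul_nonneg h5 h3)]
    exact mul_le_mul_of_nonneg_right h4 h3
  have ih' : ∀ l : Fin (D + 1), ∃ G : ℝ, 0 ≤ G ∧ ∀ (I : Finset ℕ) (c : ℕ → ℕ) (n : ℕ)
    (a b : ℕ → Finset ℕ → ℝ), I.card ≤ m → (∀ T ⊆ I, a 0 T = 1) →
    (∀ D : ℕ, ∀ T ⊆ I, ((D : ℝ) + 1) * a (D + 1) T = ∑ l ∈ range (D + 1), b (l + 1) T * a (D - l) T) →
    (∀ l, 1 ≤ l → l ≤ d → Lw I c n l (fun _ => 0) K (b l)) → Lw I c n (D - l.1) (fun _ => 0) G (a (D - l.1)) :=
    fun l => ih (D - l.1) (by omega) (by omega)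
  choose G hG hGG using ih'
  refine ⟨∑ l : Fin (D + 1), 2 ^ m * (K * G l), sum_nonneg fun l _ => by have := hG l; positivity,
    fun I c n a b hI ha0 ha hb => ?_⟩
  have hprod : ∀ l : Fin (D + 1), Lw I c n (D + 1) (fun _ => 0) (2 ^ m * (K * G l)) fun T => b (l.1 + 1) T * a (D - l.1) T := by
    intro l
    have hl := l.2
    have h1 := (hb (l.1 + 1) (by omega) (by omega)).bmul (hGG l I c n a b hI ha0 ha hb) hI hK
    have h4 : l.1 + 1 + (D - l.1) = D + 1 := by omega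
    rwa [h4] at h1
  have hsum := Lw.sum (univ : Finset (Fin (D + 1))) (fun l _ => hprod l)
  have hsm := hsum.smul (((D : ℝ) + 1)⁻¹)
  refine (hsm.congr (fun T hT => ?_) fun s _ => ?_).mono ?_
  · have h1 := ha D T hT
    rw [← Fin.sum_univ_eq_sum_range (fun l => b (l + 1) T * a (D - l) T) (D + 1)] at h1
    rw [← h1]
    have hD1 : ((D : ℝ) + 1) ≠ 0 := by positivity
    field_simp
  · simp
  · rw [abs_of_nonneg (by positivity : (0 : ℝ) ≤ ((D : ℝ) + 1)⁻¹)]
    have h1 : ((D : ℝ) + 1)⁻¹ ≤ 1 := by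
      refine inv_le_one_of_one_le₀ ?_
      have : (0 : ℝ) ≤ D := Nat.cast_nonneg _
      linarith
    exact mul_le_of_le_one_left (sum_nonneg fun l _ => by have := hG l; positivity) h1

section

variable {P : Par} {j n : ℕ} {ms : Multiset Kd}

/-- Bounds for the numbers of the points of all kinds. -/
theorem npt_bd (he : 2 ≤ P.e) (hd : P.e < P.d) (hj : j ≤ P.J) (C₁ : ℝ) : ∃ A₀ : ℝ, 0 ≤ A₀ ∧ ∀ (n : ℕ) (ms : Multiset Kd),
    Cls P j n ms → (ms.count (P.u j) : ℝ) ≤ C₁ * (n : ℝ) ^ P.e → ∀ x ≤ P.d, ∀ A ⊆ range j,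
      (npt ms x A : ℝ) * (n : ℝ) ^ (range j \ A).card ≤ A₀ * (n : ℝ) ^ x := by
  classical
  set b : ℕ → Finset ℕ → ℝ := fun x K => |C₁| + (|P.nat x K * P.cc K| + |P.eps j * P.cc K|) + (|(P.xp x K : ℝ) * P.cc K| + |(P.xm x K : ℝ) * P.cc K|) with hb
  have hb0 : ∀ x K, 0 ≤ b x K := fun x K => by rw [hb]; positivity
  refine ⟨∑ x ∈ range (P.d + 1), ∑ K ∈ (range j).powerset, b x K, sum_nonneg fun x _ => sum_nonneg fun K _ => hb0 x K,
    fun n ms H hu x hx A hA => ?_⟩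
  have hn0 : (0 : ℝ) ≤ (n : ℝ) := Nat.cast_nonneg n
  set K := range j \ A with hK
  have hKm : K ∈ (range j).powerset := mem_powerset.2 sdiff_subset
  have hle : b x K ≤ ∑ x ∈ range (P.d + 1), ∑ K ∈ (range j).powerset, b x K :=
    (single_le_sum (f := fun K => b x K) (fun K _ => hb0 x K) hKm).trans
      (single_le_sum (f := fun x => ∑ K ∈ (range j).powerset, b x K) (fun x _ => sum_nonneg fun K _ => hb0 x K) (mem_range.2 (by omega)))
  refine le_trans ?_ (mul_le_mul_of_nonneg_right hle (pow_nonneg hn0 x))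
  have hnx : 0 ≤ (n : ℝ) ^ x := pow_nonneg hn0 x
  by_cases hxd : 2 ≤ x ∧ x < P.d
  swap
  · have h1 : npt ms x A = 0 := by
      unfold npt
      rw [Multiset.count_eq_zero]
      intro h2
      have h3 := cls_pts he hd hj H _ h2
      exact hxd ⟨h3.2.1, h3.2.2.1⟩
    rw [h1, Nat.cast_zero, zero_mul]
    exact mul_nonneg (hb0 x K) hnx
  rcases lt_trichotomy K.card x with hlt | heq | hgt
  · have h3 : (n : ℝ) ^ x = (n : ℝ) ^ (x - K.card) * (n : ℝ) ^ K.card := by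
      rw [← pow_add, Nat.sub_add_cancel hlt.le]
    by_cases hmain : x ≠ P.e ∨ A ≠ range j
    · have h1 := H.win x A hxd.1 hxd.2 hA hlt hmain
      rw [← hK] at h1
      have h2 := (abs_le.1 h1).2
      have h4 : (npt ms x A : ℝ) ≤ b x K * (n : ℝ) ^ (x - K.card) := by
        have h5 : (0 : ℝ) ≤ (n : ℝ) ^ (x - K.card) := pow_nonneg hn0 _
        have h6 : P.nat x K * P.cc K * (n : ℝ) ^ (x - K.card) ≤ |P.nat x K * P.cc K| * (n : ℝ) ^ (x - K.card) :=
          mul_le_mul_of_nonneg_right (le_abs_self _) h5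
        have h7 : P.eps j * P.cc K * (n : ℝ) ^ (x - K.card) ≤ |P.eps j * P.cc K| * (n : ℝ) ^ (x - K.card) :=
          mul_le_mul_of_nonneg_right (le_abs_self _) h5
        have h8 : (|P.nat x K * P.cc K| + |P.eps j * P.cc K|) * (n : ℝ) ^ (x - K.card) ≤ b x K * (n : ℝ) ^ (x - K.card) := by
          refine mul_le_mul_of_nonneg_right ?_ h5
          rw [hb]
          beta_reduce
          have := abs_nonneg C₁
          have := abs_nonneg ((P.xp x K : ℝ) * P.cc K)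
          have := abs_nonneg ((P.xm x K : ℝ) * P.cc K)
          linarith
        linarith
      rw [h3, ← mul_assoc]
      exact mul_le_mul_of_nonneg_right h4 (pow_nonneg hn0 _)
    · push Not at hmain
      obtain ⟨hxe, hAe⟩ := hmain
      have hK0 : K = ∅ := by rw [hK, hAe, sdiff_self]; rfl
      rw [hxe, hAe, npt_u he hj H, hK0, card_empty, pow_zero, mul_one]
      refine hu.trans (mul_le_mul_of_nonneg_right ?_ (pow_nonneg hn0 _))
      rw [hb]
      beta_reduce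
      have := le_abs_self C₁
      have h5 : 0 ≤ |P.nat P.e ∅ * P.cc ∅| := abs_nonneg _
      have h6 : 0 ≤ |P.eps j * P.cc ∅| := abs_nonneg _
      have h7 : 0 ≤ |(P.xp P.e ∅ : ℝ) * P.cc ∅| := abs_nonneg _
      have h8 : 0 ≤ |(P.xm P.e ∅ : ℝ) * P.cc ∅| := abs_nonneg _
      linarith
  · have h0 := H.zero x A hxd.1 hxd.2 hA heq
    rw [← hK] at h0
    rw [heq]
    refine mul_le_mul_of_nonneg_right ?_ hnx
    have a1 := abs_nonneg C₁
    have a2 := abs_nonneg (P.nat x K * P.cc K)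
    have a3 := abs_nonneg (P.eps j * P.cc K)
    have a4 := abs_nonneg ((P.xp x K : ℝ) * P.cc K)
    have a5 := abs_nonneg ((P.xm x K : ℝ) * P.cc K)
    have a6 := le_abs_self ((P.xp x K : ℝ) * P.cc K)
    have a7 := le_abs_self ((P.xm x K : ℝ) * P.cc K)
    rcases h0 with h0 | h0
    · have h1 : (npt ms x A : ℝ) = (P.xp x K : ℝ) * P.cc K := by exact_mod_cast h0
      rw [h1, hb]
      beta_reduce
      linarith
    · have h1 : (npt ms x A : ℝ) = (P.xm x K : ℝ) * P.cc K := by exact_mod_cast h0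
      rw [h1, hb]
      beta_reduce
      linarith
  · have h1 : npt ms x A = 0 := by
      unfold npt
      rw [Multiset.count_eq_zero]
      intro h2
      have h3 := cls_pts he hd hj H _ h2
      exact absurd h3.2.2.2 (not_le.2 hgt)
    rw [h1, Nat.cast_zero, zero_mul]
    exact mul_nonneg (hb0 x K) hnx

/-- Bounded mixed differences of the numbers of the factors. -/
theorem bd_M (he : 2 ≤ P.e) (hd : P.e < P.d) (hj : j ≤ P.J) (C₁ : ℝ) : ∃ K : ℝ, 0 ≤ K ∧ ∀ n : ℕ, 1 ≤ n → ∀ ms, Cls P j n ms →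
    (ms.count (P.u j) : ℝ) ≤ C₁ * (n : ℝ) ^ P.e → ∀ x ≤ P.d,
      Lw (range j) (fun _ => 1) n x (fun _ => 0) K fun T => (((exm ms T).count x : ℕ) : ℝ) := by
  obtain ⟨A₀, hA₀, hbd⟩ := npt_bd he hd hj C₁
  set Q1 : ℝ := (((range j) ×ˢ allT P.d j).card : ℝ) * ((∑ τ ∈ allT P.d j, (τ.mm P : ℝ)) * 2 ^ j) with hQ1
  have hQ10 : 0 ≤ Q1 := by
    have : 0 ≤ ∑ τ ∈ allT P.d j, (τ.mm P : ℝ) := sum_nonneg fun _ _ => Nat.cast_nonneg _
    positivity
  refine ⟨2 ^ j * A₀ + Q1, by positivity, fun n hn ms H hu x hx => ?_⟩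
  have hn1 : (1 : ℝ) ≤ n := by exact_mod_cast hn
  have hn0 : (0 : ℝ) < n := zero_lt_one.trans_le hn1
  intro S T hS hT hST
  beta_reduce
  have hnx : 0 ≤ (n : ℝ) ^ x := pow_nonneg hn0.le _
  have hcp : cp (fun _ => 1) S = 1 := by
    unfold cp
    simp
  rw [hcp, one_mul, zero_mul, sub_zero]
  have hfun : (fun T => (((exm ms T).count x : ℕ) : ℝ)) = fun T =>
      ((((ms.bind Kd.pts).countP (fun p => p.1 = x ∧ T ⊆ p.2) : ℕ) : ℝ)) + (((ms.map (ci x T)).sum : ℕ) : ℝ) := by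
    funext T
    rw [count_exm x T ms (cls_gd he hj H)]
    push_cast
    rfl
  rw [hfun, dl_add, dl_countP]
  have hcl : |dl S (fun U => (((ms.map (ci x U)).sum : ℕ) : ℝ)) T| * (n : ℝ) ^ S.card ≤ Q1 * (n : ℝ) ^ x := by
    have h1 := cl_small he hj H hn x (T := T) hS
    rw [← hQ1] at h1
    refine le_trans ?_ h1
    exact le_mul_of_one_le_right (mul_nonneg (abs_nonneg _) (pow_nonneg hn0.le _)) hn1
  have hpts : (((ms.bind Kd.pts).countP (fun p => p.1 = x ∧ T ⊆ p.2 ∧ Disjoint S p.2) : ℕ) : ℝ) * (n : ℝ) ^ S.card ≤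
      2 ^ j * A₀ * (n : ℝ) ^ x := by
    rw [countP_eq_sum (ms.bind Kd.pts) x (range j) (fun A => T ⊆ A ∧ Disjoint S A) fun p hp =>
      (cls_pts he hd hj H p hp).1]
    set F := (range j).powerset.filter (fun A => T ⊆ A ∧ Disjoint S A) with hF
    have h2 : ∀ A ∈ F, ((npt ms x A : ℕ) : ℝ) * (n : ℝ) ^ S.card ≤ A₀ * (n : ℝ) ^ x := by
      intro A hA
      rw [hF, mem_filter, mem_powerset] at hA
      obtain ⟨hA2, hA3, hA4⟩ := hA
      have hSK : S ⊆ range j \ A := subset_sdiff.2 ⟨hS, hA4⟩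
      refine le_trans ?_ (hbd n ms H hu x hx A hA2)
      exact mul_le_mul_of_nonneg_left (pow_le_pow_right₀ hn1 (card_le_card hSK)) (Nat.cast_nonneg _)
    push_cast
    rw [sum_mul]
    calc ∑ A ∈ F, ((Multiset.count (x, A) (ms.bind Kd.pts) : ℕ) : ℝ) * (n : ℝ) ^ S.card ≤ ∑ _A ∈ F, A₀ * (n : ℝ) ^ x :=
          sum_le_sum h2
      _ = (F.card : ℝ) * (A₀ * (n : ℝ) ^ x) := by rw [sum_const, nsmul_eq_mul]
      _ ≤ 2 ^ j * (A₀ * (n : ℝ) ^ x) := by
          refine mul_le_mul_of_nonneg_right ?_ (by positivity)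
          have h5 : F.card ≤ 2 ^ j := by
            refine (card_filter_le _ _).trans ?_
            rw [card_powerset, card_range]
          exact_mod_cast h5
      _ = _ := by ring
  rw [add_mul, add_mul]
  refine (abs_add_le _ _).trans (add_le_add ?_ ?_)
  · rw [abs_of_nonneg (mul_nonneg (Nat.cast_nonneg _) (pow_nonneg hn0.le _))]
    exact hpts
  · rw [abs_mul, abs_of_nonneg (pow_nonneg hn0.le S.card)]
    exact hcl

/-- Bounded mixed differences of the size. -/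
theorem bd_N {I : Finset ℕ} {c : ℕ → ℕ} {n : ℕ} (h : ∑ i ∈ I, c i ≤ n) :
    Lw I (fun _ => 1) n 1 (fun _ => 0) (1 + ∑ i ∈ I, (c i : ℝ)) fun T => ((n - ∑ i ∈ T, c i : ℕ) : ℝ) := by
  intro S T hS hT hST
  beta_reduce
  have hcp : cp (fun _ => 1) S = 1 := by
    unfold cp
    simp
  rw [hcp, one_mul, zero_mul, sub_zero, pow_one]
  have hsum0 : 0 ≤ ∑ i ∈ I, (c i : ℝ) := sum_nonneg fun _ _ => Nat.cast_nonneg _
  have hn0 : (0 : ℝ) ≤ n := Nat.cast_nonneg _
  rcases Nat.lt_or_ge 1 S.card with h1 | h1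
  · have h2 : dl S (fun T => ((n - ∑ i ∈ T, c i : ℕ) : ℝ)) T = 0 := by
      have h3 := Lw_N (I := I) (c := c) (n := n) (ε := ∑ i ∈ I, (c i : ℝ)) h
      have hcast : ∀ U ⊆ I, ((n - ∑ i ∈ U, c i : ℕ) : ℝ) = (n : ℝ) - ∑ i ∈ U, (c i : ℝ) := by
        intro U hU
        rw [Nat.cast_sub ((sum_le_sum_of_subset hU).trans h)]
        push_cast
        rfl
      rw [dl_congr (g := fun U => (n : ℝ) - ∑ i ∈ U, (c i : ℝ)) fun U hU => hcast _ (union_subset hT (hU.trans hS))]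
      obtain ⟨i, hi⟩ := card_pos.1 (by omega : 0 < S.card)
      have hiT : i ∉ T := fun h2 => disjoint_left.1 hST hi h2
      have h2 : dl S (fun U => (n : ℝ) - ∑ i ∈ U, (c i : ℝ)) T = dl (S.erase i) (fun _ => (c i : ℝ)) T := by
        conv_lhs => rw [← insert_erase hi]
        rw [dl_insert (notMem_erase i S)]
        unfold dl
        rw [← sum_sub_distrib]
        refine sum_congr rfl fun U hU => ?_
        have h3 : i ∉ T ∪ U := by
          rw [mem_union, not_or]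
          exact ⟨hiT, fun h4 => notMem_erase i S (mem_powerset.1 hU h4)⟩
        rw [insert_union]
        beta_reduce
        rw [sum_insert h3]
        ring
      rw [h2]
      refine dl_const ?_ _ _
      rw [← card_pos, card_erase_of_mem hi]
      omega
    rw [h2, zero_mul, abs_zero]
    positivity
  · rcases Nat.lt_or_ge 0 S.card with h2 | h2
    · have h3 : S.card = 1 := by omega
      obtain ⟨i, rfl⟩ := card_eq_one.1 h3
      have hiI : i ∈ I := hS (mem_singleton_self i)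
      have hiT : i ∉ T := fun h4 => disjoint_left.1 hST (mem_singleton_self i) h4
      have h4 : dl {i} (fun T => ((n - ∑ i ∈ T, c i : ℕ) : ℝ)) T = c i := by
        have h5 : ({i} : Finset ℕ) = insert i ∅ := rfl
        rw [h5, dl_insert (notMem_empty i), dl_empty, dl_empty, sum_insert hiT]
        have h6 : c i + ∑ i ∈ T, c i ≤ n := by
          rw [← sum_insert hiT]
          exact (sum_le_sum_of_subset (insert_subset hiI hT)).trans h
        rw [Nat.cast_sub h6, Nat.cast_sub (by omega)]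
        push_cast
        ring
      rw [h4, h3, pow_one, abs_of_nonneg (mul_nonneg (Nat.cast_nonneg _) hn0)]
      refine mul_le_mul_of_nonneg_right ?_ hn0
      have h7 := single_le_sum (f := fun i => (c i : ℝ)) (fun _ _ => Nat.cast_nonneg _) hiI
      beta_reduce at h7
      linarith
    · have h3 : S = ∅ := card_eq_zero.1 (by omega)
      rw [h3, dl_empty, card_empty, pow_zero, mul_one, Nat.abs_cast]
      have h4 : ((n - ∑ i ∈ T, c i : ℕ) : ℝ) ≤ n := by exact_mod_cast Nat.sub_le _ _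
      nlinarith

end

end Pool.Agent.GD.NM

namespace Pool.Agent.GD

open Finset

/-- The virtual dimension is `0` if the degree is less than the number of the blocks. -/
theorem NM.vd_eq_zero (P : Par) (he : 2 ≤ P.e) (hed : P.e < P.d) {j : ℕ} (hj : j ≤ P.J) (C₁ : ℝ) :
    ∃ n₀ : ℕ, ∀ n, n₀ ≤ n → ∀ ms, Cls P j n ms → (ms.count (P.u j) : ℝ) ≤ C₁ * (n : ℝ) ^ P.e →
      ∀ I ⊆ range j, ∀ D ≤ P.d, D < I.card → vd D I P.c n ms = 0 := by
  obtain ⟨K, hK, hM⟩ := NM.bd_M he hed hj C₁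
  set d := P.d with hd
  set s₀ : ℝ := ∑ i ∈ range j, (P.c i : ℝ) with hs₀
  have hs₀0 : 0 ≤ s₀ := sum_nonneg fun _ _ => Nat.cast_nonneg _
  have hK1 : 0 ≤ (1 + s₀) + d * (d * K) := by positivity
  have habs := NM.bd_abs d d ((1 + s₀) + d * (d * K)) hK1
  have habs' : ∀ D : Fin (d + 1), _ := fun D => habs D.1 (Nat.lt_succ_iff.1 D.2)
  choose G hG hGG using habs'
  obtain ⟨n₁, hn₁⟩ := exists_nat_gt (∑ D : Fin (d + 1), G D)
  refine ⟨max (max n₁ 1) (∑ i ∈ range j, P.c i), fun n hn ms H hu I hI D hD hDI => ?_⟩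
  have hn1 : n₁ ≤ n := ((le_max_left _ _).trans (le_max_left _ _)).trans hn
  have hn2 : 1 ≤ n := ((le_max_right _ _).trans (le_max_left _ _)).trans hn
  have hn3 : ∑ i ∈ range j, P.c i ≤ n := (le_max_right _ _).trans hn
  have hn1r : (1 : ℝ) ≤ n := by exact_mod_cast hn2
  have hn0 : (0 : ℝ) < n := zero_lt_one.trans_le hn1r
  have hex := NM.cls_ex (n := n) (ms := ms) he hj H
  have hjd : j ≤ d := by
    have h1 : P.J ≤ P.d := Nat.sub_le _ _
    omega
  have hMx := hM n hn2 ms H hu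
  have hN := NM.bd_N hn3
  have hb : ∀ l, 1 ≤ l → l ≤ d → NM.Lw (range j) (fun _ => 1) n l (fun _ => 0) ((1 + s₀) + d * (d * K))
      fun T => ((NM.bl (n - ∑ i ∈ T, P.c i) (NM.exm ms T) l : ℤ) : ℝ) := by
    intro l hl hld
    have h1 := hN.bup (w' := l) hl hn2 (by positivity)
    have h2 : ∀ x ∈ l.divisors, NM.Lw (range j) (fun _ => 1) n l (fun _ => 0) (d * K)
        fun T => -(x : ℝ) * (((NM.exm ms T).count x : ℕ) : ℝ) := by
      intro x hx
      have hxl : x ≤ l := Nat.divisor_le hx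
      have hxr : (x : ℝ) ≤ d := by exact_mod_cast hxl.trans hld
      have h3 := ((hMx x (hxl.trans hld)).bup (w' := l) hxl hn2 hK).smul (-(x : ℝ))
      refine (h3.congr (fun _ _ => rfl) fun s _ => by rw [mul_zero]).mono ?_
      rw [abs_neg, Nat.abs_cast]
      exact mul_le_mul_of_nonneg_right hxr hK
    have h3 := h1.add (NM.Lw.sum l.divisors h2)
    refine (h3.congr (fun T _ => ?_) fun s _ => ?_).mono ?_
    · unfold NM.bl
      push_cast
      rw [sub_eq_add_neg, ← sum_neg_distrib]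
      congr 1
      exact sum_congr rfl fun x _ => by ring
    · simp
    · rw [sum_const, nsmul_eq_mul]
      have h4 : (l.divisors.card : ℝ) ≤ d := by exact_mod_cast (Nat.card_divisors_le_self l).trans hld
      have h5 : (l.divisors.card : ℝ) * (d * K) ≤ d * (d * K) := mul_le_mul_of_nonneg_right h4 (by positivity)
      linarith
  have hL := (hGG ⟨D, Nat.lt_succ_iff.2 hD⟩) (range j) (fun _ => 1) n
    (fun D T => ((PowerSeries.coeff D (NM.Fs (n - ∑ i ∈ T, P.c i) (NM.exm ms T)) : ℤ) : ℝ))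
    (fun l T => ((NM.bl (n - ∑ i ∈ T, P.c i) (NM.exm ms T) l : ℤ) : ℝ)) (by rw [card_range]; exact hjd)
    (fun T _ => by
      rw [NM.coeff_zero_Fs _ _ (NM.exm_pos hex T), Int.cast_one])
    (fun D T _ => by
      have h1 := NM.euler (n - ∑ i ∈ T, P.c i) (NM.exm ms T) (NM.exm_pos hex T) D
      exact_mod_cast h1)
    (fun l h1 h2 => hb l h1 h2)
  have h1 := hL I ∅ hI (empty_subset _) (disjoint_empty_right I)
  have h2 : NM.dl I (fun T => ((PowerSeries.coeff D (NM.Fs (n - ∑ i ∈ T, P.c i) (NM.exm ms T)) : ℤ) : ℝ)) ∅ =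
      (vd D I P.c n ms : ℝ) := by
    rw [NM.vd_eq_Fs]
    unfold NM.dl
    push_cast
    exact sum_congr rfl fun U _ => by rw [empty_union]
  dsimp only at h1
  have hcp : NM.cp (fun _ => 1) I = 1 := by
    unfold NM.cp
    simp
  rw [h2, hcp, one_mul, zero_mul, sub_zero, abs_mul, abs_of_nonneg (pow_nonneg hn0.le I.card)] at h1
  have hGn : G ⟨D, Nat.lt_succ_iff.2 hD⟩ < n := by
    have h3 := single_le_sum (f := G) (fun D _ => hG D) (mem_univ (⟨D, Nat.lt_succ_iff.2 hD⟩ : Fin (d + 1)))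
    have h4 : (n₁ : ℝ) ≤ n := by exact_mod_cast hn1
    linarith
  by_contra hne
  have h3 : (1 : ℝ) ≤ |(vd D I P.c n ms : ℝ)| := by
    have h4 : 1 ≤ |vd D I P.c n ms| := Int.one_le_abs hne
    exact_mod_cast h4
  have h4 : (n : ℝ) ^ D * n ≤ (n : ℝ) ^ I.card := by
    rw [← pow_succ]
    exact pow_le_pow_right₀ hn1r hDI
  have h5 : (n : ℝ) ^ I.card ≤ G ⟨D, Nat.lt_succ_iff.2 hD⟩ * (n : ℝ) ^ D :=
    (le_mul_of_one_le_left (pow_nonneg hn0.le _) h3).trans h1
  have h6 : (n : ℝ) ^ D * n ≤ (n : ℝ) ^ D * G ⟨D, Nat.lt_succ_iff.2 hD⟩ := by linarith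
  have h7 := le_of_mul_le_mul_left h6 (pow_pos hn0 D)
  linarith

end Pool.Agent.GD
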