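import Mathlib

/-!
# Mixed differences of functions of sets, with weights

`dl S f T = ∑_{U ⊆ S} (-1)^|U| f (T ∪ U)`; `Lw I c n w α δ f`: for disjoint `S, T ⊆ I`,
`|dl S f T n^|S| - α |S| ∏ c n^w| ≤ δ ∏ c n^w`.  The product has the binomial convolution of the leading
coefficients.
-/

set_option autoImplicit false

namespace Pool.Agent.GD.NM

open Finset

/-- The mixed difference. -/
def dl (S : Finset ℕ) (f : Finset ℕ → ℝ) (T : Finset ℕ) : ℝ :=
  ∑ U ∈ S.powerset, (-1) ^ U.card * f (T ∪ U)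

theorem dl_empty (f : Finset ℕ → ℝ) (T : Finset ℕ) : dl ∅ f T = f T := by
  simp [dl]

theorem dl_insert {i : ℕ} {S : Finset ℕ} (hi : i ∉ S) (f : Finset ℕ → ℝ) (T : Finset ℕ) :
    dl (insert i S) f T = dl S f T - dl S f (insert i T) := by
  unfold dl
  rw [sum_powerset_insert hi, sub_eq_add_neg]
  congr 1
  rw [← sum_neg_distrib]
  refine sum_congr rfl fun U hU => ?_
  have h1 : i ∉ U := fun h => hi (mem_powerset.1 hU h)
  rw [card_insert_of_notMem h1, pow_succ, union_insert, insert_union]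
  ring

theorem dl_congr {S T : Finset ℕ} {f g : Finset ℕ → ℝ} (h : ∀ U ⊆ S, f (T ∪ U) = g (T ∪ U)) :
    dl S f T = dl S g T := by
  unfold dl
  exact sum_congr rfl fun U hU => by rw [h U (mem_powerset.1 hU)]

theorem dl_add (S : Finset ℕ) (f g : Finset ℕ → ℝ) (T : Finset ℕ) :
    dl S (fun U => f U + g U) T = dl S f T + dl S g T := by
  unfold dl
  rw [← sum_add_distrib]
  exact sum_congr rfl fun U _ => by ring

theorem dl_smul (S : Finset ℕ) (a : ℝ) (f : Finset ℕ → ℝ) (T : Finset ℕ) :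
    dl S (fun U => a * f U) T = a * dl S f T := by
  unfold dl
  rw [mul_sum]
  exact sum_congr rfl fun U _ => by ring

theorem dl_sum {κ : Type*} (s : Finset κ) (S : Finset ℕ) (f : κ → Finset ℕ → ℝ) (T : Finset ℕ) :
    dl S (fun U => ∑ k ∈ s, f k U) T = ∑ k ∈ s, dl S (f k) T := by
  unfold dl
  rw [sum_comm]
  exact sum_congr rfl fun U _ => by rw [mul_sum]

theorem dl_const {S : Finset ℕ} (hS : S.Nonempty) (a : ℝ) (T : Finset ℕ) :
    dl S (fun _ => a) T = 0 := by
  obtain ⟨i, hi⟩ := hS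
  rw [← insert_erase hi, dl_insert (notMem_erase i S)]
  unfold dl
  exact sub_self _

/-- The rule of Leibniz. -/
theorem dl_mul (S : Finset ℕ) (f g : Finset ℕ → ℝ) (T : Finset ℕ) :
    dl S (fun U => f U * g U) T =
      ∑ U ∈ S.powerset, dl U f (T ∪ (S \ U)) * dl (S \ U) g T := by
  induction S using Finset.induction_on generalizing T with
  | empty => simp [dl]
  | insert i S hi ih =>
    rw [dl_insert hi, ih T, ih (insert i T), sum_powerset_insert hi, ← sum_add_distrib,
      ← sum_sub_distrib]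
    refine sum_congr rfl fun U hU => ?_
    have hU' := mem_powerset.1 hU
    have h1 : i ∉ U := fun h => hi (hU' h)
    have h2 : i ∉ S \ U := fun h => hi (mem_sdiff.1 h).1
    have h3 : insert i S \ U = insert i (S \ U) := insert_sdiff_of_notMem S h1
    have h4 : insert i S \ insert i U = S \ U := by
      ext x
      simp only [mem_sdiff, mem_insert, not_or]
      constructor
      · rintro ⟨h | h, h5, h6⟩
        · exact absurd h h5
        · exact ⟨h, h6⟩
      · rintro ⟨h, h5⟩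
        exact ⟨Or.inr h, fun h6 => hi (h6 ▸ h), h5⟩
    rw [h3, h4, dl_insert h1, dl_insert h2, union_insert, insert_union]
    ring

/-- `∏_{i ∈ S} c i`. -/
def cp (c : ℕ → ℕ) (S : Finset ℕ) : ℝ := ∏ i ∈ S, (c i : ℝ)

theorem cp_nonneg (c : ℕ → ℕ) (S : Finset ℕ) : 0 ≤ cp c S := prod_nonneg fun _ _ => Nat.cast_nonneg _

theorem cp_mul {c : ℕ → ℕ} {S U : Finset ℕ} (h : U ⊆ S) : cp c U * cp c (S \ U) = cp c S := by
  unfold cp
  rw [mul_comm]
  exact prod_sdiff h

/-- The leading coefficients of the mixed differences. -/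
def Lw (I : Finset ℕ) (c : ℕ → ℕ) (n w : ℕ) (α : ℕ → ℝ) (δ : ℝ) (f : Finset ℕ → ℝ) : Prop :=
  ∀ S T, S ⊆ I → T ⊆ I → Disjoint S T →
    |dl S f T * (n : ℝ) ^ S.card - α S.card * (cp c S * (n : ℝ) ^ w)| ≤ δ * (cp c S * (n : ℝ) ^ w)

section

variable {I : Finset ℕ} {c : ℕ → ℕ} {n w w' : ℕ} {α β : ℕ → ℝ} {δ δ' : ℝ} {f g : Finset ℕ → ℝ}

theorem Lw.mono (h : Lw I c n w α δ f) (hd : δ ≤ δ') : Lw I c n w α δ' f := fun S T hS hT hST =>
  (h S T hS hT hST).trans
    (mul_le_mul_of_nonneg_right hd (mul_nonneg (cp_nonneg c S) (pow_nonneg (Nat.cast_nonneg _) _)))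

theorem Lw.congr (h : Lw I c n w α δ f) (hfg : ∀ T ⊆ I, f T = g T)
    (hab : ∀ s ≤ I.card, α s = β s) : Lw I c n w β δ g := fun S T hS hT hST => by
  rw [← hab _ (card_le_card hS),
    ← dl_congr (f := f) (g := g) fun U hU => hfg _ (union_subset hT (hU.trans hS))]
  exact h S T hS hT hST

theorem Lw.add (hf : Lw I c n w α δ f) (hg : Lw I c n w β δ' g) :
    Lw I c n w (fun s => α s + β s) (δ + δ') fun T => f T + g T := fun S T hS hT hST => by
  have h1 := hf S T hS hT hST
  have h2 := hg S T hS hT hST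
  rw [dl_add]
  calc _ = |(dl S f T * (n : ℝ) ^ S.card - α S.card * (cp c S * (n : ℝ) ^ w)) +
        (dl S g T * (n : ℝ) ^ S.card - β S.card * (cp c S * (n : ℝ) ^ w))| := by
        congr 1
        ring
    _ ≤ _ := (abs_add_le _ _).trans (add_le_add h1 h2)
    _ = _ := by ring

theorem Lw.smul (hf : Lw I c n w α δ f) (a : ℝ) :
    Lw I c n w (fun s => a * α s) (|a| * δ) fun T => a * f T := fun S T hS hT hST => by
  have h1 := hf S T hS hT hST
  rw [dl_smul]
  calc _ = |a| * |dl S f T * (n : ℝ) ^ S.card - α S.card * (cp c S * (n : ℝ) ^ w)| := by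
        rw [← abs_mul]
        congr 1
        ring
    _ ≤ |a| * (δ * (cp c S * (n : ℝ) ^ w)) := mul_le_mul_of_nonneg_left h1 (abs_nonneg a)
    _ = _ := by ring

theorem Lw.sum {κ : Type*} (s : Finset κ) {α : κ → ℕ → ℝ} {δ : κ → ℝ} {f : κ → Finset ℕ → ℝ}
    (h : ∀ k ∈ s, Lw I c n w (α k) (δ k) (f k)) :
    Lw I c n w (fun t => ∑ k ∈ s, α k t) (∑ k ∈ s, δ k) fun T => ∑ k ∈ s, f k T :=
  fun S T hS hT hST => by
  rw [dl_sum, sum_mul, sum_mul, ← sum_sub_distrib, sum_mul]
  exact (abs_sum_le_sum_abs _ _).trans (sum_le_sum fun k hk => h k hk S T hS hT hST)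

/-- A function of a smaller weight is small. -/
theorem Lw.up {ε A : ℝ} (h : Lw I c n w α δ f) (hw : w < w') (hε : 0 ≤ ε) (hn : 1 ≤ n)
    (hA : ∀ s ≤ I.card, |α s| + δ ≤ A) (hAn : A ≤ ε * n) :
    Lw I c n w' (fun _ => 0) ε f := fun S T hS hT hST => by
  have h1 := h S T hS hT hST
  have h2 := hA _ (card_le_card hS)
  have h0 : 0 ≤ cp c S * (n : ℝ) ^ w := mul_nonneg (cp_nonneg c S) (pow_nonneg (Nat.cast_nonneg _) _)
  have hn1 : (1 : ℝ) ≤ n := by exact_mod_cast hn
  rw [zero_mul, sub_zero]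
  have h3 : |dl S f T * (n : ℝ) ^ S.card| ≤ A * (cp c S * (n : ℝ) ^ w) := by
    calc |dl S f T * (n : ℝ) ^ S.card| =
          |(dl S f T * (n : ℝ) ^ S.card - α S.card * (cp c S * (n : ℝ) ^ w)) +
            α S.card * (cp c S * (n : ℝ) ^ w)| := by
          congr 1
          ring
      _ ≤ δ * (cp c S * (n : ℝ) ^ w) + |α S.card| * (cp c S * (n : ℝ) ^ w) := by
          refine (abs_add_le _ _).trans (add_le_add h1 ?_)
          rw [abs_mul, abs_of_nonneg h0]
      _ = (|α S.card| + δ) * (cp c S * (n : ℝ) ^ w) := by ring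
      _ ≤ _ := mul_le_mul_of_nonneg_right h2 h0
  refine h3.trans ((mul_le_mul_of_nonneg_right hAn h0).trans ?_)
  have h4 : (n : ℝ) ^ (w + 1) ≤ (n : ℝ) ^ w' := pow_le_pow_right₀ hn1 hw
  calc ε * n * (cp c S * (n : ℝ) ^ w) = ε * (cp c S * (n : ℝ) ^ (w + 1)) := by ring
    _ ≤ ε * (cp c S * (n : ℝ) ^ w') :=
        mul_le_mul_of_nonneg_left (mul_le_mul_of_nonneg_left h4 (cp_nonneg c S)) hε

/-- The binomial convolution. -/
def bc (α β : ℕ → ℝ) (s : ℕ) : ℝ := ∑ u ∈ range (s + 1), (s.choose u : ℝ) * (α u * β (s - u))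

/-- Products. -/
theorem Lw.mul {A B : ℝ} {m : ℕ} (hf : Lw I c n w α δ f) (hg : Lw I c n w' β δ' g)
    (hm : I.card ≤ m) (hA : ∀ s ≤ m, |α s| ≤ A) (hB : ∀ s ≤ m, |β s| ≤ B) (hd : 0 ≤ δ) :
    Lw I c n (w + w') (bc α β) (2 ^ m * (A * δ' + B * δ + δ * δ')) fun T => f T * g T :=
  fun S T hS hT hST => by
  have hsm : S.card ≤ m := (card_le_card hS).trans hm
  have hA0 : 0 ≤ A := (abs_nonneg _).trans (hA 0 (Nat.zero_le _))
  have hB0 : 0 ≤ B := (abs_nonneg _).trans (hB 0 (Nat.zero_le _))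
  have h0 : ∀ (U : Finset ℕ) (v : ℕ), 0 ≤ cp c U * (n : ℝ) ^ v := fun U v =>
    mul_nonneg (cp_nonneg c U) (pow_nonneg (Nat.cast_nonneg _) _)
  have hconv : bc α β S.card = ∑ U ∈ S.powerset, α U.card * β (S.card - U.card) := by
    rw [Finset.sum_powerset_apply_card (fun u => α u * β (S.card - u))]
    unfold bc
    exact sum_congr rfl fun u _ => by rw [nsmul_eq_mul]
  rw [dl_mul, hconv, sum_mul, sum_mul, ← sum_sub_distrib]
  have hterm : ∀ U ∈ S.powerset, |dl U f (T ∪ (S \ U)) * dl (S \ U) g T * (n : ℝ) ^ S.card -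
      α U.card * β (S.card - U.card) * (cp c S * (n : ℝ) ^ (w + w'))| ≤
      (A * δ' + B * δ + δ * δ') * (cp c S * (n : ℝ) ^ (w + w')) := by
    intro U hU
    have hU' := mem_powerset.1 hU
    have hcard : U.card + (S \ U).card = S.card := by
      rw [card_sdiff_of_subset hU']
      have := card_le_card hU'
      omega
    have hsub : S.card - U.card = (S \ U).card := by omega
    have e1 := hf U (T ∪ (S \ U)) (hU'.trans hS) (union_subset hT (sdiff_subset.trans hS)) (by
      rw [disjoint_union_right]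
      exact ⟨hST.mono_left hU', disjoint_sdiff⟩)
    have e2 := hg (S \ U) T (sdiff_subset.trans hS) hT (hST.mono_left sdiff_subset)
    rw [hsub]
    set x := dl U f (T ∪ (S \ U)) * (n : ℝ) ^ U.card with hx
    set y := dl (S \ U) g T * (n : ℝ) ^ (S \ U).card with hy
    set p := cp c U * (n : ℝ) ^ w with hp
    set q := cp c (S \ U) * (n : ℝ) ^ w' with hq
    have hpq : cp c S * (n : ℝ) ^ (w + w') = p * q := by
      rw [hp, hq, ← cp_mul hU', pow_add]
      ring
    have hxy : dl U f (T ∪ (S \ U)) * dl (S \ U) g T * (n : ℝ) ^ S.card = x * y := by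
      rw [hx, hy, ← hcard, pow_add]
      ring
    rw [hpq, hxy]
    have hp0 : 0 ≤ p := h0 _ _
    have hq0 : 0 ≤ q := h0 _ _
    have ha : |α U.card| ≤ A := hA _ ((card_le_card hU').trans hsm)
    have hb : |β (S \ U).card| ≤ B := hB _ (by omega)
    have k1 : x * y - α U.card * β (S \ U).card * (p * q) =
        α U.card * p * (y - β (S \ U).card * q) + (x - α U.card * p) * (β (S \ U).card * q) +
          (x - α U.card * p) * (y - β (S \ U).card * q) := by ring
    rw [k1]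
    have k2 : |α U.card * p * (y - β (S \ U).card * q)| ≤ A * p * (δ' * q) := by
      rw [abs_mul, abs_mul, abs_of_nonneg hp0]
      exact mul_le_mul (mul_le_mul_of_nonneg_right ha hp0) e2 (abs_nonneg _)
        (mul_nonneg hA0 hp0)
    have k3 : |(x - α U.card * p) * (β (S \ U).card * q)| ≤ δ * p * (B * q) := by
      rw [abs_mul, abs_mul, abs_of_nonneg hq0]
      exact mul_le_mul e1 (mul_le_mul_of_nonneg_right hb hq0)
        (mul_nonneg (abs_nonneg _) hq0) (mul_nonneg hd hp0)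
    have k4 : |(x - α U.card * p) * (y - β (S \ U).card * q)| ≤ δ * p * (δ' * q) := by
      rw [abs_mul]
      exact mul_le_mul e1 e2 (abs_nonneg _) (mul_nonneg hd hp0)
    calc _ ≤ |α U.card * p * (y - β (S \ U).card * q)| +
          |(x - α U.card * p) * (β (S \ U).card * q)| +
          |(x - α U.card * p) * (y - β (S \ U).card * q)| :=
          (abs_add_le _ _).trans (add_le_add_left (abs_add_le _ _) _)
      _ ≤ A * p * (δ' * q) + δ * p * (B * q) + δ * p * (δ' * q) := by linarith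
      _ = _ := by ring
  calc _ ≤ ∑ U ∈ S.powerset, (A * δ' + B * δ + δ * δ') * (cp c S * (n : ℝ) ^ (w + w')) :=
        (abs_sum_le_sum_abs _ _).trans (sum_le_sum hterm)
    _ = 2 ^ S.card * ((A * δ' + B * δ + δ * δ') * (cp c S * (n : ℝ) ^ (w + w'))) := by
        rw [sum_const, card_powerset, nsmul_eq_mul]
        push_cast
        ring
    _ ≤ 2 ^ m * ((A * δ' + B * δ + δ * δ') * (cp c S * (n : ℝ) ^ (w + w'))) := by
        refine mul_le_mul_of_nonneg_right (pow_le_pow_right₀ one_le_two hsm) ?_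
        exact (abs_nonneg _).trans (hterm ∅ (empty_mem_powerset _))
    _ = _ := by ring

end

end Pool.Agent.GD.NM
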