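import Pool.Agent.GD.Defs

/-!
# The Euler relation for the coefficients of `∏ (1 - t^x) / (1 - t)^N`
-/

set_option autoImplicit false

namespace Pool.Agent.GD.NM

open Finset PowerSeries

/-- `∏_{x ∈ xs} (1 - t^x) / (1 - t)^N`. -/
noncomputable def Fs (N : ℕ) (xs : Multiset ℕ) : PowerSeries ℤ :=
  (xs.map fun x => (1 - X ^ x : PowerSeries ℤ)).prod * hs N

/-- `t^x / (1 - t^x)`. -/
noncomputable def Ux (x : ℕ) : PowerSeries ℤ := mk fun k => if k ≠ 0 ∧ x ∣ k then 1 else 0

theorem one_sub_Ux {x : ℕ} (hx : 1 ≤ x) : (1 - X ^ x) * Ux x = X ^ x := by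
  ext k
  rw [sub_mul, one_mul, map_sub, coeff_X_pow_mul', coeff_X_pow]
  unfold Ux
  simp only [coeff_mk]
  by_cases h1 : x ≤ k
  · rw [if_pos h1]
    obtain ⟨l, rfl⟩ := Nat.exists_eq_add_of_le h1
    rw [Nat.add_sub_cancel_left]
    by_cases h2 : l = 0
    · subst h2
      simp
      omega
    · have h3 : x ∣ x + l ↔ x ∣ l := by
        rw [Nat.dvd_add_right (dvd_refl x)]
      have h4 : x + l ≠ x := by omega
      have h5 : x + l ≠ 0 := by omega
      simp only [h3, h4, h5, h2, ne_eq, not_false_eq_true, true_and, if_false]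
      split_ifs <;> simp
  · rw [if_neg h1, sub_zero, if_neg, if_neg]
    · omega
    · rintro ⟨h2, h3⟩
      exact h1 (Nat.le_of_dvd (Nat.pos_of_ne_zero h2) h3)

theorem hs_succ (N : ℕ) : (1 - X) * hs (N + 1) = hs N := by
  ext k
  rw [sub_mul, one_mul, map_sub]
  cases k with
  | zero =>
    unfold hs
    simp
  | succ k =>
    rw [coeff_succ_X_mul]
    unfold hs
    simp only [coeff_mk]
    rw [Nat.multichoose_succ_succ]
    push_cast
    ring

theorem one_sub_ne (x : ℕ) (hx : 1 ≤ x) : (1 - X ^ x : PowerSeries ℤ) ≠ 0 := by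
  intro h
  have h1 := congrArg constantCoeff h
  rw [map_sub, map_one, map_pow, constantCoeff_X, zero_pow (by omega), sub_zero, map_zero] at h1
  exact one_ne_zero h1

/-- The operator `t d/dt`. -/
noncomputable def th (F : PowerSeries ℤ) : PowerSeries ℤ := X * derivative ℤ F

theorem th_mul (F G : PowerSeries ℤ) : th (F * G) = th F * G + F * th G := by
  unfold th
  rw [Derivation.leibniz, smul_eq_mul, smul_eq_mul]
  ring

theorem th_one_sub (x : ℕ) (hx : 1 ≤ x) : th (1 - X ^ x) = -((x : PowerSeries ℤ) * X ^ x) := by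
  unfold th
  rw [map_sub, Derivation.map_one_eq_zero, zero_sub, derivative_pow, derivative_X, mul_one]
  obtain ⟨y, rfl⟩ := Nat.exists_eq_add_of_le' hx
  rw [Nat.add_sub_cancel, pow_succ]
  ring

theorem th_hs (N : ℕ) : th (hs N) = hs N * ((N : PowerSeries ℤ) * Ux 1) := by
  induction N with
  | zero =>
    have h0 : hs 0 = 1 := by
      ext k
      unfold hs
      rw [coeff_mk, coeff_one]
      cases k <;> simp
    rw [h0, Nat.cast_zero, zero_mul, mul_zero]
    unfold th
    rw [Derivation.map_one_eq_zero, mul_zero]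
  | succ N ih =>
    have h1 := one_sub_Ux (x := 1) le_rfl
    rw [pow_one] at h1
    have h2 : th ((1 - X) * hs (N + 1)) = hs N * ((N : PowerSeries ℤ) * Ux 1) := by rw [hs_succ, ih]
    have h3 := th_one_sub 1 le_rfl
    rw [pow_one, Nat.cast_one, one_mul] at h3
    rw [th_mul, h3, ← hs_succ N] at h2
    have h4 : (1 - X : PowerSeries ℤ) ≠ 0 := by
      have := one_sub_ne 1 le_rfl
      rwa [pow_one] at this
    refine mul_left_cancel₀ h4 ?_
    have h5 : (1 - X) * th (hs (N + 1)) = (1 - X) * hs (N + 1) * ((N : PowerSeries ℤ) * Ux 1) + X * hs (N + 1) := by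
      rw [← h2]
      ring
    rw [h5]
    push_cast
    linear_combination -(hs (N + 1)) * h1

/-- The logarithmic derivative. -/
noncomputable def Ls (N : ℕ) (xs : Multiset ℕ) : PowerSeries ℤ :=
  (N : PowerSeries ℤ) * Ux 1 - (xs.map fun x : ℕ => (x : PowerSeries ℤ) * Ux x).sum

theorem Fs_cons (N x : ℕ) (xs : Multiset ℕ) : Fs N (x ::ₘ xs) = (1 - X ^ x) * Fs N xs := by
  unfold Fs
  rw [Multiset.map_cons, Multiset.prod_cons, mul_assoc]

theorem Ls_cons (N x : ℕ) (xs : Multiset ℕ) : Ls N (x ::ₘ xs) = Ls N xs - (x : PowerSeries ℤ) * Ux x := by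
  unfold Ls
  rw [Multiset.map_cons, Multiset.sum_cons]
  ring

theorem th_Fs (N : ℕ) (xs : Multiset ℕ) (h : ∀ x ∈ xs, 1 ≤ x) : th (Fs N xs) = Fs N xs * Ls N xs := by
  induction xs using Multiset.induction_on with
  | empty =>
    unfold Fs Ls
    rw [Multiset.map_zero, Multiset.prod_zero, one_mul, Multiset.map_zero, Multiset.sum_zero, sub_zero]
    exact th_hs N
  | cons x xs ih =>
    have hx : 1 ≤ x := h x (Multiset.mem_cons_self x xs)
    rw [Fs_cons, th_mul, ih fun y hy => h y (Multiset.mem_cons_of_mem hy), Ls_cons, th_one_sub x hx]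
    linear_combination (-(x : PowerSeries ℤ) * Fs N xs) * (one_sub_Ux hx).symm

/-- The coefficients of the logarithmic derivative. -/
noncomputable def bl (N : ℕ) (xs : Multiset ℕ) (l : ℕ) : ℤ :=
  (N : ℤ) - ∑ x ∈ l.divisors, (x : ℤ) * (xs.count x : ℤ)

theorem coeff_Ls (N : ℕ) (xs : Multiset ℕ) (h : ∀ x ∈ xs, 1 ≤ x) (l : ℕ) (hl : l ≠ 0) : coeff l (Ls N xs) = bl N xs l := by
  induction xs using Multiset.induction_on with
  | empty =>
    unfold Ls bl Ux
    rw [Multiset.map_zero, Multiset.sum_zero, sub_zero]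
    have : (N : PowerSeries ℤ) = C (N : ℤ) := by simp
    rw [this, coeff_C_mul, coeff_mk]
    simp [hl]
  | cons x xs ih =>
    rw [Ls_cons, map_sub, ih fun y hy => h y (Multiset.mem_cons_of_mem hy)]
    have hx : 1 ≤ x := h x (Multiset.mem_cons_self x xs)
    have : (x : PowerSeries ℤ) = C (x : ℤ) := by simp
    rw [this, coeff_C_mul]
    unfold bl Ux
    rw [coeff_mk]
    have h2 : ∑ y ∈ l.divisors, (y : ℤ) * ((x ::ₘ xs).count y : ℤ) =
        ∑ y ∈ l.divisors, (y : ℤ) * (xs.count y : ℤ) + ∑ y ∈ l.divisors, if y = x then (y : ℤ) else 0 := by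
      rw [← sum_add_distrib]
      refine sum_congr rfl fun y _ => ?_
      rw [Multiset.count_cons]
      split_ifs
      · push_cast
        ring
      · push_cast
        ring
    rw [h2, Finset.sum_ite_eq']
    by_cases h3 : x ∣ l
    · rw [if_pos ⟨hl, h3⟩, if_pos (Nat.mem_divisors.2 ⟨h3, hl⟩)]
      ring
    · rw [if_neg fun h4 => h3 h4.2, if_neg fun h4 => h3 (Nat.mem_divisors.1 h4).1]
      ring

theorem coeff_zero_Ls (N : ℕ) (xs : Multiset ℕ) : coeff 0 (Ls N xs) = 0 := by
  induction xs using Multiset.induction_on with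
  | empty =>
    unfold Ls Ux
    rw [Multiset.map_zero, Multiset.sum_zero, sub_zero]
    have : (N : PowerSeries ℤ) = C (N : ℤ) := by simp
    rw [this, coeff_C_mul, coeff_mk]
    simp
  | cons x xs ih =>
    rw [Ls_cons, map_sub, ih]
    have : (x : PowerSeries ℤ) = C (x : ℤ) := by simp
    rw [this, coeff_C_mul]
    unfold Ux
    rw [coeff_mk]
    simp

/-- The Euler relation. -/
theorem euler (N : ℕ) (xs : Multiset ℕ) (h : ∀ x ∈ xs, 1 ≤ x) (D : ℕ) :
    ((D : ℤ) + 1) * coeff (D + 1) (Fs N xs) =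
      ∑ l ∈ range (D + 1), bl N xs (l + 1) * coeff (D - l) (Fs N xs) := by
  have h1 := congrArg (coeff (D + 1)) (th_Fs N xs h)
  unfold th at h1
  rw [coeff_succ_X_mul, coeff_derivative, mul_comm (Fs N xs), coeff_mul,
    Finset.Nat.sum_antidiagonal_eq_sum_range_succ (fun a b => coeff a (Ls N xs) * coeff b (Fs N xs)),
    Finset.sum_range_succ', coeff_zero_Ls, zero_mul, add_zero] at h1
  rw [mul_comm, h1]
  refine sum_congr rfl fun l _ => ?_
  rw [coeff_Ls N xs h _ (Nat.succ_ne_zero l), Nat.add_sub_add_right]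

theorem coeff_zero_Fs (N : ℕ) (xs : Multiset ℕ) (h : ∀ x ∈ xs, 1 ≤ x) : coeff 0 (Fs N xs) = 1 := by
  rw [coeff_zero_eq_constantCoeff]
  induction xs using Multiset.induction_on with
  | empty =>
    unfold Fs hs
    rw [Multiset.map_zero, Multiset.prod_zero, one_mul, ← coeff_zero_eq_constantCoeff_apply, coeff_mk]
    simp
  | cons x xs ih =>
    have hx : 1 ≤ x := h x (Multiset.mem_cons_self x xs)
    rw [Fs_cons, map_mul, ih fun y hy => h y (Multiset.mem_cons_of_mem hy), map_sub, map_one, map_pow,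
      constantCoeff_X, zero_pow (by omega), sub_zero, mul_one]

/-! ### The exponents of an object on `L_I'` -/

/-- The exponents of the factors of an object. -/
def exs (I' : Finset ℕ) : Kd → Multiset ℕ
  | .ord e A => if I' ⊆ A then {e} else 0
  | .cl e dl i As => if i ∈ I' then (if I'.erase i ⊆ inter As then {trx e dl As.length} else 0)
      else ((As.filter fun A => I' ⊆ A).map fun _ => e : List ℕ)

theorem P_eq (I' : Finset ℕ) (k : Kd) :
    Kd.P I' k = ((exs I' k).map fun x => (1 - X ^ x : PowerSeries ℤ)).prod := by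
  cases k with
  | ord e A =>
    unfold Kd.P exs
    dsimp only
    split_ifs <;> simp
  | cl e dl i As =>
    unfold Kd.P exs
    dsimp only
    split_ifs
    · simp
    · simp
    · rw [Multiset.map_coe, Multiset.prod_coe, List.map_map]
      induction As with
      | nil => simp
      | cons A As ih =>
        rw [List.map_cons, List.prod_cons, ih]
        by_cases hA : I' ⊆ A
        · rw [if_pos hA, List.filter_cons_of_pos (by simpa using hA), List.map_cons, List.prod_cons]
          rfl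
        · rw [if_neg hA, List.filter_cons_of_neg (by simpa using hA), one_mul]

theorem exs_pos {I' : Finset ℕ} {k : Kd} (hk : 1 ≤ k.ex) : ∀ x ∈ exs I' k, 1 ≤ x := by
  intro x hx
  cases k with
  | ord e A =>
    have he : 1 ≤ e := hk
    unfold exs at hx
    dsimp only at hx
    split_ifs at hx
    · rw [Multiset.mem_singleton.1 hx]
      exact he
    · exact absurd hx (Multiset.notMem_zero x)
  | cl e dl i As =>
    have he : 1 ≤ e := hk
    unfold exs at hx
    dsimp only at hx
    split_ifs at hx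
    · rw [Multiset.mem_singleton.1 hx]
      unfold trx
      omega
    · exact absurd hx (Multiset.notMem_zero x)
    · rw [Multiset.mem_coe, List.mem_map] at hx
      obtain ⟨A, -, rfl⟩ := hx
      exact he

/-- The exponents of a configuration. -/
def exm (ms : Multiset Kd) (I' : Finset ℕ) : Multiset ℕ := ms.bind (exs I')

theorem prod_P (ms : Multiset Kd) (I' : Finset ℕ) :
    (ms.map (Kd.P I')).prod = ((exm ms I').map fun x => (1 - X ^ x : PowerSeries ℤ)).prod := by
  induction ms using Multiset.induction_on with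
  | empty => simp [exm]
  | cons k ms ih =>
    unfold exm at ih ⊢
    rw [Multiset.map_cons, Multiset.prod_cons, ih, Multiset.cons_bind, Multiset.map_add, Multiset.prod_add,
      P_eq]

theorem vd_eq_Fs (D : ℕ) (I : Finset ℕ) (c : ℕ → ℕ) (n : ℕ) (ms : Multiset Kd) :
    vd D I c n ms = ∑ J ∈ I.powerset, (-1) ^ J.card * coeff D (Fs (n - ∑ i ∈ J, c i) (exm ms J)) := by
  unfold vd Fs
  refine sum_congr rfl fun J _ => ?_
  rw [prod_P]

theorem exm_pos {ms : Multiset Kd} (h : ∀ k ∈ ms, 1 ≤ k.ex) (I' : Finset ℕ) : ∀ x ∈ exm ms I', 1 ≤ x := by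
  intro x hx
  obtain ⟨k, hk, hx'⟩ := Multiset.mem_bind.1 hx
  exact exs_pos (h k hk) x hx'

end Pool.Agent.GD.NM
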