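import Pool.Agent.GD.NM.Cal
import Pool.Agent.GD.NM.Eul
import Pool.Agent.GD.Cls

/-!
# The numbers of the factors on `L_I'` as functions of `I'`
-/

set_option autoImplicit false

namespace Pool.Agent.GD.NM

open Finset

theorem dl_ind (A S T : Finset ℕ) : dl S (fun U => if U ⊆ A then (1 : ℝ) else 0) T =
    if T ⊆ A ∧ Disjoint S A then 1 else 0 := by
  induction S using Finset.induction_on generalizing T with
  | empty => simp [dl_empty]
  | insert i S hi ih =>
    rw [dl_insert hi, ih, ih]
    by_cases h1 : T ⊆ A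
    · by_cases h2 : Disjoint S A
      · by_cases h3 : i ∈ A
        · have h4 : ¬ Disjoint (insert i S) A := fun h => disjoint_left.1 h (mem_insert_self i S) h3
          rw [if_pos ⟨h1, h2⟩, if_pos ⟨insert_subset h3 h1, h2⟩, if_neg fun h => h4 h.2, sub_self]
        · have h4 : Disjoint (insert i S) A := disjoint_insert_left.2 ⟨h3, h2⟩
          rw [if_pos ⟨h1, h2⟩, if_neg fun h => h3 (h.1 (mem_insert_self i T)), if_pos ⟨h1, h4⟩, sub_zero]
      · have h4 : ¬ Disjoint (insert i S) A := fun h => h2 (h.mono_left (subset_insert i S))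
        rw [if_neg fun h => h2 h.2, if_neg fun h => h2 h.2, if_neg fun h => h4 h.2, sub_self]
    · rw [if_neg fun h => h1 h.1, if_neg fun h => h1 ((subset_insert i T).trans h.1), if_neg fun h => h1 h.1, sub_self]

/-- Mixed differences of the number of the points on `L_T`. -/
theorem dl_countP (PP : Multiset (ℕ × Finset ℕ)) (x : ℕ) (S T : Finset ℕ) :
    dl S (fun U => (PP.countP (fun p => p.1 = x ∧ U ⊆ p.2) : ℝ)) T =
      (PP.countP (fun p => p.1 = x ∧ T ⊆ p.2 ∧ Disjoint S p.2) : ℝ) := by
  induction PP using Multiset.induction_on with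
  | empty =>
    simp only [Multiset.countP_zero, Nat.cast_zero]
    unfold dl
    simp
  | cons p PP ih =>
    have h1 : (fun U => (((p ::ₘ PP).countP (fun p => p.1 = x ∧ U ⊆ p.2) : ℕ) : ℝ)) =
        fun U => ((PP.countP (fun p => p.1 = x ∧ U ⊆ p.2) : ℕ) : ℝ) + (if p.1 = x then 1 else 0) * (if U ⊆ p.2 then (1 : ℝ) else 0) := by
      funext U
      rw [Multiset.countP_cons]
      push_cast
      congr 1
      by_cases h2 : p.1 = x <;> by_cases h3 : U ⊆ p.2 <;> simp [h2, h3]
    rw [h1, dl_add, ih, dl_smul, dl_ind, Multiset.countP_cons]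
    push_cast
    congr 1
    by_cases h2 : p.1 = x <;> by_cases h3 : T ⊆ p.2 <;> by_cases h4 : Disjoint S p.2 <;> simp [h2, h3, h4]

theorem countP_eq_sum (PP : Multiset (ℕ × Finset ℕ)) (x : ℕ) (R : Finset ℕ) (q : Finset ℕ → Prop) [DecidablePred q]
    (h : ∀ p ∈ PP, p.2 ⊆ R) :
    PP.countP (fun p => p.1 = x ∧ q p.2) = ∑ A ∈ R.powerset.filter q, PP.count (x, A) := by
  induction PP using Multiset.induction_on with
  | empty => simp
  | cons p PP ih =>
    rw [Multiset.countP_cons, ih fun p' hp' => h p' (Multiset.mem_cons_of_mem hp')]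
    have hp : p.2 ⊆ R := h p (Multiset.mem_cons_self p PP)
    have h1 : ∀ A ∈ R.powerset.filter q, (p ::ₘ PP).count (x, A) = PP.count (x, A) + if A = p.2 then (if p.1 = x then 1 else 0) else 0 := by
      intro A _
      rw [Multiset.count_cons]
      congr 1
      obtain ⟨y, B⟩ := p
      simp only [Prod.mk.injEq]
      by_cases h2 : A = B <;> by_cases h3 : y = x
      · rw [if_pos ⟨h3.symm, h2⟩, if_pos h2, if_pos h3]
      · rw [if_neg fun h => h3 h.1.symm, if_pos h2, if_neg h3]
      · rw [if_neg fun h => h2 h.2, if_neg h2]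
      · rw [if_neg fun h => h2 h.2, if_neg h2]
    rw [sum_congr rfl h1, sum_add_distrib]
    congr 1
    rw [Finset.sum_ite_eq']
    by_cases h2 : q p.2
    · rw [if_pos (mem_filter.2 ⟨mem_powerset.2 hp, h2⟩)]
      by_cases h3 : p.1 = x
      · rw [if_pos ⟨h3, h2⟩, if_pos h3]
      · rw [if_neg fun h => h3 h.1, if_neg h3]
    · rw [if_neg fun h => h2 (mem_filter.1 h).2, if_neg fun h => h2 h.2]

/-- The contribution of the sum of the points of a cluster. -/
def ci (x : ℕ) (T : Finset ℕ) : Kd → ℕ
  | .ord _ _ => 0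
  | .cl e dl i As => if x = trx e dl As.length ∧ i ∈ T ∧ T.erase i ⊆ inter As then 1 else 0

/-- No member of the cluster vanishes on its own block. -/
def Gd : Kd → Prop
  | .ord _ _ => True
  | .cl _ _ i As => ∀ A ∈ As, i ∉ A

theorem count_exs (x : ℕ) (T : Finset ℕ) (k : Kd) (hk : Gd k) :
    (exs T k).count x = k.pts.countP (fun p => p.1 = x ∧ T ⊆ p.2) + ci x T k := by
  cases k with
  | ord e A =>
    unfold exs Kd.pts ci
    dsimp only
    have h0 : Multiset.countP (fun p : ℕ × Finset ℕ => p.1 = x ∧ T ⊆ p.2) {(e, A)} = if e = x ∧ T ⊆ A then 1 else 0 := by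
      rw [← Multiset.cons_zero, Multiset.countP_cons, Multiset.countP_zero, zero_add]
    rw [add_zero, h0]
    by_cases h1 : T ⊆ A
    · rw [if_pos h1, Multiset.count_singleton]
      by_cases h2 : e = x
      · rw [if_pos h2.symm, if_pos ⟨h2, h1⟩]
      · rw [if_neg fun h => h2 h.symm, if_neg fun h => h2 h.1]
    · rw [if_neg h1, if_neg fun h => h1 h.2, Multiset.count_zero]
  | cl e dl i As =>
    have hk' : ∀ A ∈ As, i ∉ A := hk
    unfold exs Kd.pts ci
    dsimp only
    by_cases h1 : i ∈ T
    · have h2 : Multiset.countP (fun p : ℕ × Finset ℕ => p.1 = x ∧ T ⊆ p.2)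
          ((As.map fun A => (e, A) : List (ℕ × Finset ℕ)) : Multiset (ℕ × Finset ℕ)) = 0 := by
        rw [Multiset.countP_eq_zero]
        intro p hp h3
        rw [Multiset.mem_coe, List.mem_map] at hp
        obtain ⟨A, hA, rfl⟩ := hp
        exact hk' A hA (h3.2 h1)
      rw [h2, zero_add, if_pos h1]
      by_cases h3 : T.erase i ⊆ inter As
      · rw [if_pos h3, Multiset.count_singleton]
        by_cases h4 : x = trx e dl As.length
        · rw [if_pos h4, if_pos ⟨h4, h1, h3⟩]
        · rw [if_neg h4, if_neg fun h => h4 h.1]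
      · rw [if_neg h3, if_neg fun h => h3 h.2.2, Multiset.count_zero]
    · rw [if_neg h1, if_neg fun h => h1 h.2.1, add_zero]
      clear hk hk'
      induction As with
      | nil => simp
      | cons A As ih =>
        have e2 : ((A :: As).map fun A => (e, A) : List (ℕ × Finset ℕ)) = (e, A) :: As.map fun A => (e, A) := rfl
        rw [e2, ← Multiset.cons_coe, Multiset.countP_cons, ← ih]
        by_cases hA : T ⊆ A
        · rw [List.filter_cons_of_pos (by simpa using hA), List.map_cons, ← Multiset.cons_coe, Multiset.count_cons]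
          congr 1
          by_cases h2 : e = x
          · rw [if_pos h2.symm, if_pos ⟨h2, hA⟩]
          · rw [if_neg fun h => h2 h.symm, if_neg fun h => h2 h.1]
        · rw [List.filter_cons_of_neg (by simpa using hA), if_neg fun h => hA h.2, add_zero]

theorem count_exm (x : ℕ) (T : Finset ℕ) (ms : Multiset Kd) (h : ∀ k ∈ ms, Gd k) :
    (exm ms T).count x = (ms.bind Kd.pts).countP (fun p => p.1 = x ∧ T ⊆ p.2) + (ms.map (ci x T)).sum := by
  induction ms using Multiset.induction_on with
  | empty => simp [exm]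
  | cons k ms ih =>
    have h1 := ih fun k' hk' => h k' (Multiset.mem_cons_of_mem hk')
    unfold exm at h1 ⊢
    rw [Multiset.cons_bind, Multiset.count_add, h1, Multiset.cons_bind, Multiset.countP_add, Multiset.map_cons,
      Multiset.sum_cons, count_exs x T k (h k (Multiset.mem_cons_self k ms))]
    ring

/-! ### Clusters -/

/-- The mixed differences of the contribution of a cluster. -/
theorem dl_ci (x e dl' i : ℕ) (As : List (Finset ℕ)) (S T : Finset ℕ) :
    dl S (fun U => (ci x U (.cl e dl' i As) : ℝ)) T = 0 ∨ (x = trx e dl' As.length ∧ S.erase i ∩ inter As = ∅) := by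
  by_cases hx : x = trx e dl' As.length
  · by_cases h : S.erase i ∩ inter As = ∅
    · exact Or.inr ⟨hx, h⟩
    · left
      obtain ⟨s, hs⟩ := nonempty_iff_ne_empty.2 h
      rw [mem_inter, mem_erase] at hs
      rw [← insert_erase hs.1.2, dl_insert (notMem_erase s S)]
      have h1 : ∀ U : Finset ℕ, ci x (insert s U) (.cl e dl' i As) = ci x U (.cl e dl' i As) := by
        intro U
        unfold ci
        dsimp only
        have h2 : (x = trx e dl' As.length ∧ i ∈ insert s U ∧ (insert s U).erase i ⊆ inter As) ↔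
            (x = trx e dl' As.length ∧ i ∈ U ∧ U.erase i ⊆ inter As) := by
          rw [erase_insert_of_ne hs.1.1, insert_subset_iff, mem_insert]
          constructor
          · rintro ⟨h3, h4 | h4, h5⟩
            · exact absurd h4.symm hs.1.1
            · exact ⟨h3, h4, h5.2⟩
          · rintro ⟨h3, h4, h5⟩
            exact ⟨h3, Or.inr h4, hs.2, h5⟩
        by_cases h3 : x = trx e dl' As.length ∧ i ∈ U ∧ U.erase i ⊆ inter As
        · rw [if_pos h3, if_pos (h2.2 h3)]
        · rw [if_neg h3, if_neg fun h4 => h3 (h2.1 h4)]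
      unfold dl
      rw [sub_eq_zero]
      refine sum_congr rfl fun U _ => ?_
      rw [insert_union]
      dsimp only
      rw [h1]
  · left
    have h1 : (fun U => (ci x U (.cl e dl' i As) : ℝ)) = fun _ => 0 := by
      funext U
      unfold ci
      dsimp only
      rw [if_neg fun h => hx h.1, Nat.cast_zero]
    rw [h1]
    unfold dl
    simp

theorem abs_dl_le (S T : Finset ℕ) (f : Finset ℕ → ℝ) (h : ∀ U, |f U| ≤ 1) : |dl S f T| ≤ 2 ^ S.card := by
  unfold dl
  refine (abs_sum_le_sum_abs _ _).trans ?_
  calc ∑ U ∈ S.powerset, |(-1) ^ U.card * f (T ∪ U)| ≤ ∑ _U ∈ S.powerset, (1 : ℝ) := by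
        refine sum_le_sum fun U _ => ?_
        rw [abs_mul, abs_pow, abs_neg, abs_one, one_pow, one_mul]
        exact h _
    _ = 2 ^ S.card := by
        rw [sum_const, card_powerset, nsmul_eq_mul, mul_one]
        push_cast
        ring

theorem abs_dl_ci (x : ℕ) (k : Kd) (S T : Finset ℕ) : |dl S (fun U => (ci x U k : ℝ)) T| ≤ 2 ^ S.card := by
  refine abs_dl_le S T _ fun U => ?_
  cases k with
  | ord e A => simp [ci]
  | cl e dl' i As =>
    unfold ci
    dsimp only
    split_ifs <;> simp

theorem mbs_length {i j k : ℕ} (hk : 1 ≤ k) (S : Finset ℕ) : (mbs i j k S).length = k := by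
  unfold mbs
  split_ifs with h
  · rw [List.length_singleton, h]
  · rw [List.length_cons, List.length_replicate]
    omega

theorem mbr_length (i j k e r : ℕ) : (mbr i j k e r).length = k := by
  unfold mbr
  rw [List.length_map, List.length_range]

theorem mem_inter {As : List (Finset ℕ)} (hAs : As ≠ []) {s : ℕ} : s ∈ inter As ↔ ∀ A ∈ As, s ∈ A := by
  obtain ⟨A, Bs, rfl⟩ := List.exists_cons_of_ne_nil hAs
  unfold inter
  rw [List.headD_cons, mem_filter]
  exact ⟨fun h => h.2, fun h => ⟨h A List.mem_cons_self, h⟩⟩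

theorem mem_mbs {i j k : ℕ} {S A : Finset ℕ} (h : A ∈ mbs i j k S) : A = (range j).erase i ∨ A = (range j).erase i \ S := by
  unfold mbs at h
  split_ifs at h
  · right
    exact List.mem_singleton.1 h
  · rcases List.mem_cons.1 h with h1 | h1
    · exact Or.inl h1
    · right
      exact List.eq_of_mem_replicate h1

/-- The data of a cluster of the class: the exponent of the trace and the support of the sum. -/
theorem kd_data {d e i j : ℕ} (he : 2 ≤ e) (hj : j ≤ d - e) (hi : i < j) {τ : CT} (h : τ.Ok d e i j) :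
    ∃ (dl' : ℕ) (As : List (Finset ℕ)) (V : Finset ℕ), τ.kd d e i j = .cl e dl' i As ∧ As ≠ [] ∧
      (∀ A ∈ As, A ⊆ (range j).erase i ∧ (range j \ A).card ≤ e) ∧
      (∀ s ∈ (range j).erase i, s ∉ V → s ∈ inter As) ∧ τ.w e + (V.card + 1) + 1 ≤ trx e dl' As.length := by
  have hde : e < d := by omega
  cases τ with
  | pl k S =>
    obtain ⟨h1, h2, h3, h4⟩ := h
    have hlen := mbs_length (i := i) (j := j) (k := k) (by omega) S
    have hne : mbs i j k S ≠ [] := fun h0 => by rw [h0] at hlen; simp at hlen; omega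
    refine ⟨0, mbs i j k S, S, rfl, hne, fun A hA => ?_, fun s hs hsS => ?_, ?_⟩
    · have hc : (range j \ ((range j).erase i \ S)) ⊆ insert i S := by
        intro s hs
        simp only [mem_sdiff, mem_erase, mem_insert, not_and, not_not] at hs ⊢
        by_cases h5 : s = i
        · exact Or.inl h5
        · exact Or.inr (hs.2 ⟨h5, hs.1⟩)
      have hc2 : (range j \ (range j).erase i) ⊆ insert i S := by
        intro s hs
        simp only [mem_sdiff, mem_erase, mem_insert, not_and] at hs ⊢
        by_contra h5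
        push Not at h5
        exact hs.2 h5.1 hs.1
      have hcard : (insert i S).card ≤ e := (card_insert_le i S).trans (by omega)
      rcases mem_mbs hA with rfl | rfl
      · exact ⟨Subset.rfl, (card_le_card hc2).trans hcard⟩
      · exact ⟨sdiff_subset, (card_le_card hc).trans hcard⟩
    · rw [mem_inter hne]
      intro A hA
      rcases mem_mbs hA with rfl | rfl
      · exact hs
      · exact mem_sdiff.2 ⟨hs, hsS⟩
    · rw [hlen]
      unfold CT.w trx
      dsimp only
      have h5 : 2 * (e - 1) ≤ k * (e - 1) := Nat.mul_le_mul_right _ h1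
      omega
  | b0 S =>
    obtain ⟨h1, h3, h4⟩ := h
    have hk1 : 1 ≤ (d - i - 1) / (e - 1) := by
      rw [Nat.one_le_div_iff (by omega)]
      omega
    have hlen := mbs_length (i := i) (j := j) hk1 S
    have hne : mbs i j ((d - i - 1) / (e - 1)) S ≠ [] := fun h0 => by rw [h0] at hlen; simp at hlen; omega
    have he3 : 2 < e := by
      by_contra h5
      have h6 : e - 1 = 1 := by omega
      rw [h6, Nat.mod_one] at h1
      exact h1 rfl
    refine ⟨(d - i - 1) % (e - 1), mbs i j ((d - i - 1) / (e - 1)) S, S, rfl, hne, fun A hA => ?_, fun s hs hsS => ?_, ?_⟩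
    · have hc : (range j \ ((range j).erase i \ S)) ⊆ insert i S := by
        intro s hs
        simp only [mem_sdiff, mem_erase, mem_insert, not_and, not_not] at hs ⊢
        by_cases h5 : s = i
        · exact Or.inl h5
        · exact Or.inr (hs.2 ⟨h5, hs.1⟩)
      have hc2 : (range j \ (range j).erase i) ⊆ insert i S := by
        intro s hs
        simp only [mem_sdiff, mem_erase, mem_insert, not_and] at hs ⊢
        by_contra h5
        push Not at h5
        exact hs.2 h5.1 hs.1
      have hcard : (insert i S).card ≤ e := (card_insert_le i S).trans (by omega)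
      rcases mem_mbs hA with rfl | rfl
      · exact ⟨Subset.rfl, (card_le_card hc2).trans hcard⟩
      · exact ⟨sdiff_subset, (card_le_card hc).trans hcard⟩
    · rw [mem_inter hne]
      intro A hA
      rcases mem_mbs hA with rfl | rfl
      · exact hs
      · exact mem_sdiff.2 ⟨hs, hsS⟩
    · rw [hlen]
      unfold CT.w trx
      dsimp only
      have h5 : (d - i - 1) / (e - 1) * (e - 1) + (d - i - 1) % (e - 1) = d - i - 1 := Nat.div_add_mod' _ _
      omega
  | br r =>
    obtain ⟨h1, h2⟩ := h
    have hk1 : 1 ≤ (d - i + r - 1) / (e - 1) := by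
      rw [Nat.one_le_div_iff (by omega)]
      omega
    have hlen := mbr_length i j ((d - i + r - 1) / (e - 1)) e r
    have hne : mbr i j ((d - i + r - 1) / (e - 1)) e r ≠ [] := fun h0 => by rw [h0] at hlen; simp at hlen; omega
    refine ⟨(d - i + r - 1) % (e - 1), mbr i j ((d - i + r - 1) / (e - 1)) e r, range r, rfl, hne, fun A hA => ?_, fun s hs hsS => ?_, ?_⟩
    · unfold mbr at hA
      obtain ⟨t, -, rfl⟩ := List.mem_map.1 hA
      refine ⟨sdiff_subset, ?_⟩
      have hc : (range j \ ((range j).erase i \ (Ico (t * (e - 1)) ((t + 1) * (e - 1)) ∩ range r))) ⊆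
          insert i (Ico (t * (e - 1)) ((t + 1) * (e - 1))) := by
        intro s hs
        simp only [mem_sdiff, mem_erase, mem_insert, not_and, not_not] at hs ⊢
        by_cases h5 : s = i
        · exact Or.inl h5
        · exact Or.inr (mem_of_mem_inter_left (hs.2 ⟨h5, hs.1⟩))
      refine (card_le_card hc).trans ((card_insert_le _ _).trans ?_)
      rw [Nat.card_Ico, Nat.add_mul, one_mul, Nat.add_sub_cancel_left]
      omega
    · rw [mem_inter hne]
      intro A hA
      unfold mbr at hA
      obtain ⟨t, -, rfl⟩ := List.mem_map.1 hA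
      exact mem_sdiff.2 ⟨hs, fun h5 => hsS (mem_of_mem_inter_right h5)⟩
    · rw [hlen]
      unfold CT.w trx
      dsimp only
      have h5 : (d - i + r - 1) / (e - 1) * (e - 1) + (d - i + r - 1) % (e - 1) = d - i + r - 1 := Nat.div_add_mod' _ _
      rw [card_range]
      omega

end Pool.Agent.GD.NM
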