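import Pool.Agent.GD.NM.Cnt

/-!
# The windows of the class give the leading coefficients of the numbers of the factors
-/

set_option autoImplicit false

namespace Pool.Agent.GD.NM

open Finset

theorem cc_eq (P : Par) (K : Finset ℕ) : (P.cc K : ℝ) = cp P.c K := by
  unfold Par.cc cp
  push_cast
  rfl

theorem eps_mono {P : Par} {E : ℝ} (h : P.Ok 1 E) {i j : ℕ} (hij : i ≤ j) (hj : j ≤ P.J) :
    0 < P.eps i ∧ P.eps i ≤ P.eps j ∧ (i < j → P.bet (i + 1) ≤ P.eps j ∧ 0 < P.bet (i + 1)) := by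
  have hstep : ∀ a < P.J, P.eps a ≤ P.bet (a + 1) ∧ P.bet (a + 1) ≤ P.eps (a + 1) := fun a ha =>
    ⟨by have := h.eb a ha; rwa [one_mul] at this, by have := h.be a ha; rwa [one_mul] at this⟩
  have hpos : ∀ a ≤ P.J, 0 < P.eps a := by
    intro a
    induction a with
    | zero => exact fun _ => h.eps0
    | succ a ih =>
      intro ha
      have h1 := ih (by omega)
      have h2 := hstep a (by omega)
      linarith [h2.1, h2.2]
  have hmono : ∀ b, i ≤ b → b ≤ P.J → P.eps i ≤ P.eps b := by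
    intro b hb
    induction b, hb using Nat.le_induction with
    | base => exact fun _ => le_rfl
    | succ b hb ih =>
      intro hb1
      have h1 := ih (by omega)
      have h2 := hstep b (by omega)
      linarith [h2.1, h2.2]
  have hmono' : ∀ a b, a ≤ b → b ≤ P.J → P.eps a ≤ P.eps b := by
    intro a b hb
    induction b, hb using Nat.le_induction with
    | base => exact fun _ => le_rfl
    | succ b hb ih =>
      intro hb1
      have h1 := ih (by omega)
      have h2 := hstep b (by omega)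
      linarith [h2.1, h2.2]
  refine ⟨hpos i (by omega), hmono j hij hj, fun hlt => ⟨?_, ?_⟩⟩
  · exact (hstep i (by omega)).2.trans (hmono' _ _ hlt hj)
  · exact (hpos i (by omega)).trans_le (hstep i (by omega)).1

theorem sum_ite_count {α : Type*} [DecidableEq α] (a : α) (ms : Multiset α) :
    (ms.map fun k => if a = k then 1 else 0).sum = ms.count a := by
  induction ms using Multiset.induction_on with
  | empty => simp
  | cons k ms ih =>
    rw [Multiset.map_cons, Multiset.sum_cons, ih, Multiset.count_cons, add_comm]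

section

variable {P : Par} {j n : ℕ} {ms : Multiset Kd}

theorem J_le (h : 2 ≤ P.e) (hd : P.e < P.d) (hj : j ≤ P.J) : j ≤ P.d - P.e := hj

theorem cls_pts (he : 2 ≤ P.e) (hd : P.e < P.d) (hj : j ≤ P.J) (H : Cls P j n ms) :
    ∀ p ∈ ms.bind Kd.pts, p.2 ⊆ range j ∧ 2 ≤ p.1 ∧ p.1 < P.d ∧ (range j \ p.2).card ≤ p.1 := by
  intro p hp
  obtain ⟨k, hk, hpk⟩ := Multiset.mem_bind.1 hp
  rcases H.mem k hk with ⟨x, A, rfl, h2, h3, h4, h5⟩ | ⟨i, hi, τ, hτ, rfl⟩
  · unfold Kd.pts at hpk
    dsimp only at hpk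
    rw [Multiset.mem_singleton.1 hpk]
    exact ⟨h4, h2, h3, h5⟩
  · obtain ⟨dl', As, V, h1, -, h2, -, -⟩ := kd_data he hj hi hτ
    rw [h1] at hpk
    unfold Kd.pts at hpk
    dsimp only at hpk
    rw [Multiset.mem_coe, List.mem_map] at hpk
    obtain ⟨A, hA, rfl⟩ := hpk
    exact ⟨(h2 A hA).1.trans (erase_subset _ _), he, hd, (h2 A hA).2⟩

theorem cls_gd (he : 2 ≤ P.e) (hj : j ≤ P.J) (H : Cls P j n ms) : ∀ k ∈ ms, Gd k := by
  intro k hk
  rcases H.mem k hk with ⟨x, A, rfl, -⟩ | ⟨i, hi, τ, hτ, rfl⟩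
  · trivial
  · obtain ⟨dl', As, V, h1, -, h2, -, -⟩ := kd_data he hj hi hτ
    rw [h1]
    intro A hA h3
    exact notMem_erase i _ ((h2 A hA).1 h3)

theorem cls_ex (he : 2 ≤ P.e) (hj : j ≤ P.J) (H : Cls P j n ms) : ∀ k ∈ ms, 1 ≤ k.ex := by
  intro k hk
  rcases H.mem k hk with ⟨x, A, rfl, h2, -⟩ | ⟨i, hi, τ, hτ, rfl⟩
  · show 1 ≤ x
    omega
  · obtain ⟨dl', As, V, h1, -⟩ := kd_data he hj hi hτ
    rw [h1]
    show 1 ≤ P.e
    omega

/-- The points of the main kind are not in clusters. -/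
theorem npt_u (he : 2 ≤ P.e) (hj : j ≤ P.J) (H : Cls P j n ms) :
    npt ms P.e (range j) = ms.count (P.u j) := by
  unfold npt
  rw [Multiset.count_bind]
  have h1 : ∀ k ∈ ms, (k.pts.count (P.e, range j)) = if P.u j = k then 1 else 0 := by
    intro k hk
    rcases H.mem k hk with ⟨x, A, rfl, -⟩ | ⟨i, hi, τ, hτ, rfl⟩
    · unfold Kd.pts
      dsimp only
      rw [Multiset.count_singleton]
      unfold Par.u
      by_cases h2 : P.e = x ∧ range j = A
      · rw [if_pos (by rw [h2.1, h2.2]), if_pos (by rw [h2.1, h2.2])]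
      · rw [if_neg fun h => h2 (Prod.mk.inj h), if_neg fun h => h2 (by injection h with h3 h4; exact ⟨h3, h4⟩)]
    · obtain ⟨dl', As, V, h1, -, h2, -, -⟩ := kd_data he hj hi hτ
      rw [h1]
      have h3 : P.u j ≠ .cl P.e dl' i As := by
        unfold Par.u
        exact Kd.noConfusion
      rw [if_neg h3]
      unfold Kd.pts
      dsimp only
      rw [Multiset.count_eq_zero, Multiset.mem_coe, List.mem_map]
      rintro ⟨A, hA, h4⟩
      have h5 : A = range j := (Prod.mk.inj h4).2
      have h6 := (h2 A hA).1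
      rw [h5] at h6
      exact notMem_erase i _ (h6 (mem_range.2 hi))
  rw [Multiset.map_congr rfl h1]
  exact sum_ite_count _ _

/-- The windows of all kinds of points. -/
theorem npt_win (hP : P.Ok 1 1) (hj : j ≤ P.J) (H : Cls P j n ms) {ε : ℝ} (hε : P.eps j ≤ ε)
    (hu : |(ms.count (P.u j) : ℝ) - P.kap P.e * (n : ℝ) ^ P.e| ≤ ε * (n : ℝ) ^ P.e) (x : ℕ) {A : Finset ℕ}
    (hA : A ⊆ range j) :
    |(npt ms x A : ℝ) * (n : ℝ) ^ (range j \ A).card -
      P.kap x * (x.descFactorial (range j \ A).card : ℕ) * (cp P.c (range j \ A) * (n : ℝ) ^ x)| ≤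
      ε * (cp P.c (range j \ A) * (n : ℝ) ^ x) := by
  have he := hP.two
  have hd := hP.lt
  have hn0 : (0 : ℝ) ≤ (n : ℝ) := Nat.cast_nonneg n
  set K := range j \ A with hK
  have hcp : 0 ≤ cp P.c K * (n : ℝ) ^ x := mul_nonneg (cp_nonneg _ _) (pow_nonneg hn0 _)
  have heps : 0 < P.eps j := (eps_mono hP (le_refl j) hj).1
  have hε0 : 0 ≤ ε := heps.le.trans hε
  by_cases hx : 2 ≤ x ∧ x < P.d
  swap
  · have h1 : npt ms x A = 0 := by
      unfold npt
      rw [Multiset.count_eq_zero]
      intro h2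
      have h3 := cls_pts he hd hj H _ h2
      exact hx ⟨h3.2.1, h3.2.2.1⟩
    have h2 : P.kap x = 0 := by
      by_contra h3
      have h4 := hP.supp x h3
      exact hx ⟨h4.1, h4.2.trans_lt hd⟩
    rw [h1, h2, Nat.cast_zero, zero_mul, zero_mul, zero_mul, sub_zero, abs_zero]
    exact mul_nonneg hε0 hcp
  rcases lt_trichotomy K.card x with hlt | heq | hgt
  · by_cases hmain : x ≠ P.e ∨ A ≠ range j
    · have h1 := H.win x A hx.1 hx.2 hA hlt hmain
      rw [← hK, cc_eq] at h1
      have h3 : (n : ℝ) ^ x = (n : ℝ) ^ (x - K.card) * (n : ℝ) ^ K.card := by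
        rw [← pow_add, Nat.sub_add_cancel hlt.le]
      have h4 : 0 ≤ (n : ℝ) ^ K.card := pow_nonneg hn0 _
      rw [h3]
      calc _ = |((npt ms x A : ℝ) - P.nat x K * cp P.c K * (n : ℝ) ^ (x - K.card)) * (n : ℝ) ^ K.card| := by
            congr 1
            unfold Par.nat
            ring
        _ = |(npt ms x A : ℝ) - P.nat x K * cp P.c K * (n : ℝ) ^ (x - K.card)| * (n : ℝ) ^ K.card := by
            rw [abs_mul, abs_of_nonneg h4]
        _ ≤ P.eps j * cp P.c K * (n : ℝ) ^ (x - K.card) * (n : ℝ) ^ K.card := mul_le_mul_of_nonneg_right h1 h4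
        _ = P.eps j * (cp P.c K * ((n : ℝ) ^ (x - K.card) * (n : ℝ) ^ K.card)) := by ring
        _ ≤ _ := mul_le_mul_of_nonneg_right hε (mul_nonneg (cp_nonneg _ _)
            (mul_nonneg (pow_nonneg hn0 _) h4))
    · push Not at hmain
      obtain ⟨hxe, hAe⟩ := hmain
      have hK0 : K = ∅ := by rw [hK, hAe, sdiff_self]; rfl
      subst hxe
      subst hAe
      rw [npt_u he hj H, hK0, card_empty, pow_zero, Nat.descFactorial_zero]
      unfold cp
      rw [prod_empty]
      simpa using hu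
  · have hne : K.Nonempty := card_pos.1 (by omega)
    obtain ⟨i, hi⟩ := max_of_nonempty hne
    have hiK : i ∈ K := mem_of_max hi
    have hij : i < j := mem_range.1 (mem_sdiff.1 hiK).1
    have hKJ : K ⊆ range P.J := fun s hs => mem_range.2 ((mem_range.1 (mem_sdiff.1 hs).1).trans_le hj)
    have hb := (eps_mono hP hij.le hj).2.2 hij
    have h0 := H.zero x A hx.1 hx.2 hA heq
    rw [← hK] at h0
    have hkey : ∀ r : ℚ, (npt ms x A : ℚ) = r * P.cc K → |(r : ℝ) - P.nat x K| ≤ P.eps j →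
        |(npt ms x A : ℝ) * (n : ℝ) ^ K.card - P.kap x * (x.descFactorial K.card : ℕ) * (cp P.c K * (n : ℝ) ^ x)| ≤
          ε * (cp P.c K * (n : ℝ) ^ x) := by
      intro r hr hr'
      have h1 : (npt ms x A : ℝ) = (r : ℝ) * cp P.c K := by
        rw [← cc_eq]
        exact_mod_cast hr
      rw [h1, heq]
      calc _ = |((r : ℝ) - P.nat x K) * (cp P.c K * (n : ℝ) ^ x)| := by
            congr 1
            unfold Par.nat
            rw [heq]
            ring
        _ = |(r : ℝ) - P.nat x K| * (cp P.c K * (n : ℝ) ^ x) := by rw [abs_mul, abs_of_nonneg hcp]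
        _ ≤ ε * (cp P.c K * (n : ℝ) ^ x) := mul_le_mul_of_nonneg_right (hr'.trans hε) hcp
    rcases h0 with h0 | h0
    · refine hkey _ h0 ?_
      have h1 := hP.xp x K hx.1 hKJ heq i hi
      rw [abs_le]
      constructor <;> linarith [h1.1, h1.2, hb.1, hb.2]
    · refine hkey _ h0 ?_
      by_cases hk : P.kap x = 0
      · rw [hP.xm0 x K hk]
        unfold Par.nat
        rw [hk]
        simpa using heps.le
      · have h1 := hP.xm x K hx.1 hKJ heq i hi hk
        rw [abs_le]
        constructor <;> linarith [h1.1, h1.2, hb.1, hb.2]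
  · have h1 : npt ms x A = 0 := by
      unfold npt
      rw [Multiset.count_eq_zero]
      intro h2
      have h3 := cls_pts he hd hj H _ h2
      exact absurd h3.2.2.2 (not_le.2 hgt)
    rw [h1, Nat.descFactorial_of_lt hgt, Nat.cast_zero, zero_mul, mul_zero, zero_mul, sub_zero, abs_zero]
    exact mul_nonneg hε0 hcp

end

end Pool.Agent.GD.NM
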